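import Pool.Agent.V7H66.Wid.Step

/-!
From the locality theorem to threshold functions.
-/

namespace Pool.Agent.V7H66.Wid

open Finset Filter

lemma mu_star {X : Type} [Fintype X] [DecidableEq X] (p : ℝ) (v : X) :
    Ex p (fun ρ : X → Option Bool => ind (ρ v = none)) = p := by
  classical
  have h1 : (fun ρ : X → Option Bool => ind (ρ v = none)) =
      fun ρ => ∏ u, (if u = v then (if ρ u = none then (1 : ℝ) else 0) else 1) := by
    funext ρ
    rw [Finset.prod_ite_eq']
    simp [ind]
  rw [h1]
  refine (Ex_prod (X := X) p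
    (fun u o => if u = v then (if o = none then (1 : ℝ) else 0) else 1)).trans ?_
  have h2 : ∀ u : X, ∑ o, w1 p o * (if u = v then (if o = none then (1 : ℝ) else 0) else 1) =
      if u = v then p else 1 := by
    intro u
    by_cases hu : u = v
    · simp only [hu, if_true, Fintype.sum_option, Fintype.sum_bool, w1]
      simp
    · simp only [hu, if_false, mul_one, sum_w1]
  simp_rw [h2]
  rw [Finset.prod_ite_eq']
  simp

lemma Ex_stars {X : Type} [Fintype X] [DecidableEq X] (p : ℝ) :
    Ex p (fun ρ : X → Option Bool => ((univ.filter fun v => ρ v = none).card : ℝ)) =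
      Fintype.card X * p := by
  classical
  have h1 : (fun ρ : X → Option Bool => ((univ.filter fun v => ρ v = none).card : ℝ)) =
      fun ρ => ∑ v, ind (ρ v = none) := by
    funext ρ
    rw [Finset.card_filter]
    push_cast
    exact Finset.sum_congr rfl fun v _ => by simp [ind]
  rw [h1, Ex_sum]
  simp_rw [mu_star]
  rw [Finset.sum_const, nsmul_eq_mul]
  rfl

/-- a good restriction with many stars -/
lemma exists_good {X : Type} [Fintype X] [DecidableEq X] {g : ℝ} (hg : 1 ≤ g)
    (Bad : (X → Option Bool) → Prop) (hX : 0 < Fintype.card X)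
    (hbad : mu (1 / g) Bad < 1 / (2 * g)) :
    ∃ ρ : X → Option Bool, ¬ Bad ρ ∧
      (Fintype.card X : ℝ) / (2 * g) ≤ (univ.filter fun v => ρ v = none).card := by
  classical
  by_contra hno
  push Not at hno
  have hg0 : (0 : ℝ) < g := by linarith
  have hp0 : (0 : ℝ) ≤ 1 / g := by positivity
  have hp1 : 1 / g ≤ 1 := by rw [div_le_one hg0]; exact hg
  have hcX : (0 : ℝ) < Fintype.card X := by exact_mod_cast hX
  have h1 : Ex (1 / g) (fun ρ : X → Option Bool => ((univ.filter fun v => ρ v = none).card : ℝ)) ≤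
      Ex (1 / g) (fun ρ : X → Option Bool => (Fintype.card X : ℝ) * ind (Bad ρ) +
        (Fintype.card X : ℝ) / (2 * g)) := by
    refine Ex_mono hp0 hp1 fun ρ => ?_
    have hle : ((univ.filter fun v => ρ v = none).card : ℝ) ≤ Fintype.card X := by
      exact_mod_cast Finset.card_le_univ _
    by_cases hb : Bad ρ
    · rw [ind_true hb]
      have : (0 : ℝ) ≤ (Fintype.card X : ℝ) / (2 * g) := by positivity
      linarith
    · rw [ind_false hb]
      have := hno ρ hb
      linarith
  rw [Ex_stars, Ex_add, Ex_mul_left, Ex_const] at h1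
  have h2 : (Fintype.card X : ℝ) * Ex (1 / g) (fun ρ : X → Option Bool => ind (Bad ρ)) <
      (Fintype.card X : ℝ) * (1 / (2 * g)) := mul_lt_mul_of_pos_left hbad hcX
  have h3 : (Fintype.card X : ℝ) * (1 / g) = (Fintype.card X : ℝ) * (1 / (2 * g)) +
      (Fintype.card X : ℝ) / (2 * g) := by field_simp; norm_num
  linarith

lemma Loc.comp {X S : Type} [Fintype X] [DecidableEq X] [PartialOrder S] {K1 K2 : ℕ}
    {F G : (X → Bool) → S → S}
    (hF : ∃ L : Finset X, L.card ≤ K1 ∧ ∀ x y : X → Bool, (∀ v ∈ L, x v = y v) → ∀ s, F x s = F y s)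
    (hG : ∃ L : Finset X, L.card ≤ K2 ∧ ∀ x y : X → Bool, (∀ v ∈ L, x v = y v) → ∀ s, G x s = G y s) :
    ∃ L : Finset X, L.card ≤ K1 + K2 ∧
      ∀ x y : X → Bool, (∀ v ∈ L, x v = y v) → ∀ s, G x (F x s) = G y (F y s) := by
  obtain ⟨L1, h1, h1'⟩ := hF
  obtain ⟨L2, h2, h2'⟩ := hG
  refine ⟨L1 ∪ L2, (Finset.card_union_le _ _).trans (Nat.add_le_add h1 h2), fun x y hxy s => ?_⟩
  rw [h1' x y (fun v hv => hxy v (Finset.mem_union_left _ hv)) s]
  exact h2' x y (fun v hv => hxy v (Finset.mem_union_right _ hv)) _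

/-- total dependence of a run with few special layers -/
lemma dep_total {X S : Type} [Fintype X] [DecidableEq X] [PartialOrder S]
    (F : ℕ → (X → Bool) → S → S) (spec : ℕ → Prop) [DecidablePred spec] (d K c : ℕ)
    (h1 : ∀ l n, l + n ≤ d → (∀ j, l ≤ j → j < l + n → ¬ spec j) →
      ∃ L : Finset X, L.card ≤ K ∧ ∀ x y : X → Bool, (∀ v ∈ L, x v = y v) →
        ∀ s, run (fun i => F (l + i)) x n s = run (fun i => F (l + i)) y n s)
    (h2 : ∀ i < d, ∃ L : Finset X, L.card ≤ c ∧ ∀ x y : X → Bool, (∀ v ∈ L, x v = y v) →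
        ∀ s, F i x s = F i y s) :
    ∀ i ≤ d, ∃ L : Finset X, L.card ≤ (((range i).filter spec).card + 1) * (K + c) ∧
      ∀ x y : X → Bool, (∀ v ∈ L, x v = y v) → ∀ s, run F x i s = run F y i s := by
  intro i
  induction i using Nat.strong_induction_on with
  | _ i ih =>
    intro hid
    by_cases hT : ((range i).filter spec).Nonempty
    · set l := ((range i).filter spec).max' hT with hl
      have hlm := Finset.max'_mem _ hT
      rw [← hl, Finset.mem_filter, Finset.mem_range] at hlm
      have hgap : ∀ j, l + 1 ≤ j → j < i → ¬ spec j := by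
        intro j hj1 hj2 hs
        have := Finset.le_max' ((range i).filter spec) j (by simp [hj2, hs])
        omega
      have hcard : ((range i).filter spec).card = ((range l).filter spec).card + 1 := by
        have : (range i).filter spec = insert l ((range l).filter spec) := by
          ext j
          simp only [Finset.mem_filter, Finset.mem_range, Finset.mem_insert]
          constructor
          · rintro ⟨h3, h4⟩
            rcases lt_trichotomy j l with h | h | h
            · exact Or.inr ⟨h, h4⟩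
            · exact Or.inl h
            · exact absurd h4 (hgap j h h3)
          · rintro (h | ⟨h, h4⟩)
            · rw [h]; exact hlm
            · exact ⟨h.trans hlm.1, h4⟩
        rw [this, Finset.card_insert_of_notMem (by simp)]
      have hA := ih l hlm.1 (by omega)
      have hB := h2 l (by omega)
      have hC := h1 (l + 1) (i - (l + 1)) (by omega) (fun j hj1 hj2 => hgap j hj1 (by omega))
      obtain ⟨L, hL1, hL2⟩ := Loc.comp (Loc.comp hA hB) hC
      refine ⟨L, ?_, fun x y hxy s => ?_⟩
      · refine hL1.trans ?_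
        rw [hcard]
        nlinarith
      · have key : ∀ z : X → Bool, run F z i s =
            run (fun j => F (l + 1 + j)) z (i - (l + 1)) (F l z (run F z l s)) := by
          intro z
          have h5 := run_add F z (l + 1) (i - (l + 1)) s
          rw [show l + 1 + (i - (l + 1)) = i by omega] at h5
          rw [h5]; rfl
        rw [key x, key y]
        exact hL2 x y hxy s
    · have hno : ∀ j < i, ¬ spec j := fun j hj hs => hT ⟨j, by simp [hj, hs]⟩
      obtain ⟨L, hL1, hL2⟩ := h1 0 i (by omega) (fun j _ hj => hno j (by omega))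
      refine ⟨L, ?_, fun x y hxy s => ?_⟩
      · refine hL1.trans ?_
        nlinarith [Nat.zero_le (((range i).filter spec).card), Nat.zero_le K, Nat.zero_le c]
      · have h6 := hL2 x y hxy s
        have h7 : (fun i => F (0 + i)) = F := by funext j; rw [Nat.zero_add]
        rw [h7] at h6
        exact h6

/-- input assembled from the restricted block and a fixed pattern outside -/
def asm {N : ℕ} (Xs W : Finset (Fin N)) (x : {v // v ∈ Xs} → Bool) : Fin N → Bool :=
  fun v => if h : v ∈ Xs then x ⟨v, h⟩ else decide (v ∈ W)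

lemma asm_mono {N : ℕ} (Xs W : Finset (Fin N)) {x y : {v // v ∈ Xs} → Bool} (h : x ≤ y) :
    asm Xs W x ≤ asm Xs W y := by
  intro v
  unfold asm
  split_ifs with hv
  · exact h _
  · exact le_rfl

lemma card_asm {N : ℕ} (Xs W : Finset (Fin N)) (hW : Disjoint W Xs)
    (x : {v // v ∈ Xs} → Bool) :
    (univ.filter fun v => asm Xs W x v = true).card =
      (univ.filter fun v => x v = true).card + W.card := by
  classical
  have h1 : (univ.filter fun v => asm Xs W x v = true) =
      ((univ.filter fun v : {v // v ∈ Xs} => x v = true).map (Function.Embedding.subtype _)) ∪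
        W := by
    ext v
    simp only [Finset.mem_filter, Finset.mem_univ, true_and, Finset.mem_union, Finset.mem_map,
      Function.Embedding.coe_subtype, Subtype.exists, exists_and_right, exists_eq_right, asm]
    by_cases hv : v ∈ Xs
    · have hvW : v ∉ W := fun h => Finset.disjoint_left.1 hW h hv
      simp [hv, hvW]
    · simp [hv]
  rw [h1, Finset.card_union_of_disjoint, Finset.card_map]
  rw [Finset.disjoint_left]
  intro v hv hvW
  obtain ⟨u, _, rfl⟩ := Finset.mem_map.1 hv
  exact Finset.disjoint_left.1 hW hvW u.2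

lemma run_pre' {X Y S : Type} (F : ℕ → (Y → Bool) → S → S) (φ : (X → Bool) → (Y → Bool))
    (x : X → Bool) (n : ℕ) (s : S) : run (fun i x => F i (φ x)) x n s = run F (φ x) n s := by
  induction n with
  | zero => rfl
  | succ n ih => show F n (φ x) (run (fun i x => F i (φ x)) x n s) = _; rw [ih]; rfl

/-- **Core theorem** for arbitrary layered computations of width `w`. -/
theorem core (w A : ℕ) (ε δ : ℝ) (hε : 0 < ε) (hε1 : ε < 1) (hδ : 0 < δ) :
    ∃ N0 : ℕ, ∀ N ≥ N0, ∀ (d : ℕ) (F : ℕ → (Fin N → Bool) → (Fin w → Bool) → (Fin w → Bool))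
      (spec : ℕ → Prop) [DecidablePred spec] (R : ℕ → Finset (Fin N)) (Xs : Finset (Fin N))
      (s0 : Fin w → Bool) (o : Fin w) (k : ℕ),
      d ≤ N ^ A →
      (∀ i < d, (R i).card ≤ 2 * w) →
      (∀ i < d, ∀ x y : Fin N → Bool, (∀ v ∈ R i, x v = y v) → ∀ s, F i x s = F i y s) →
      (∀ i < d, ¬ spec i → ∀ x y : Fin N → Bool, x ≤ y → (∀ v, v ∉ Xs → x v = y v) →
        ∀ s t, s ≤ t → F i x s ≤ F i y t) →
      (∀ x, run F x d s0 o = decide (k ≤ (univ.filter fun v => x v = true).card)) →
      (N : ℝ) ^ δ ≤ Xs.card → Xs.card < k → Xs.card + k ≤ N + 1 →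
      (Xs.card : ℝ) ^ (1 - ε) < ((range d).filter spec).card := by
  classical
  set a : ℕ := ⌈2 / (δ * ε)⌉₊ with ha
  set b : ℕ := a + 2 * (a * A) + 2 with hb
  obtain ⟨K, hK⟩ := claim_all (2 ^ w - 1) (2 * w) (a * A) b
  have hw1 : 2 ^ w - 1 + 1 = 2 ^ w := Nat.sub_add_cancel Nat.one_le_two_pow
  rw [hw1, eventually_atTop] at hK
  obtain ⟨g0, hg0⟩ := hK
  set K2 : ℕ := 2 ^ w * K + 2 * w with hK2
  have ht : Tendsto (fun N : ℕ => (N : ℝ) ^ (δ * (ε / 2))) atTop atTop :=
    (tendsto_rpow_atTop (by positivity)).comp tendsto_natCast_atTop_atTop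
  obtain ⟨N0, hN0⟩ := eventually_atTop.1 (ht.eventually (eventually_ge_atTop
    (max g0 (max (2 ^ (w + 4) + 1) (4 * (K2 : ℝ) + 1)))))
  refine ⟨N0 + 1, ?_⟩
  intro N hN d F spec _ R Xs s0 o k hd hR hloc hmono hcomp hMδ hMk hMN
  set M := Xs.card with hM
  have hN1 : 1 ≤ N := by omega
  have hNr : (1 : ℝ) ≤ N := by exact_mod_cast hN1
  have hM1r : (1 : ℝ) ≤ M := (Real.one_le_rpow hNr hδ.le).trans hMδ
  have hM0 : (0 : ℝ) < M := by linarith
  set g : ℝ := (M : ℝ) ^ (ε / 2) with hg
  have hgN : (N : ℝ) ^ (δ * (ε / 2)) ≤ g := by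
    rw [Real.rpow_mul (by positivity)]
    exact Real.rpow_le_rpow (by positivity) hMδ (by positivity)
  have hmax := (hN0 N (by omega)).trans hgN
  have hgg0 : g0 ≤ g := (le_max_left _ _).trans hmax
  have hgw : (2 : ℝ) ^ (w + 4) + 1 ≤ g :=
    ((le_max_left _ _).trans (le_max_right _ _)).trans hmax
  have hgK : 4 * (K2 : ℝ) + 1 ≤ g := ((le_max_right _ _).trans (le_max_right _ _)).trans hmax
  have hgpos : (0 : ℝ) < g := Real.rpow_pos_of_pos hM0 _
  have hg1 : (1 : ℝ) ≤ g := Real.one_le_rpow hM1r (by positivity)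
  have hp0 : (0 : ℝ) ≤ 1 / g := by positivity
  have hp1 : 1 / g ≤ 1 := by rw [div_le_one hgpos]; exact hg1
  -- N is bounded by a power of g
  have hNg : (N : ℝ) ≤ g ^ a := by
    have h1 : (N : ℝ) = ((N : ℝ) ^ (δ * (ε / 2))) ^ (2 / (δ * ε)) := by
      rw [← Real.rpow_mul (by positivity)]
      have : δ * (ε / 2) * (2 / (δ * ε)) = 1 := by field_simp
      rw [this, Real.rpow_one]
    have h2 : (N : ℝ) ≤ g ^ (2 / (δ * ε)) := by
      rw [h1]
      exact Real.rpow_le_rpow (by positivity) hgN (by positivity)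
    refine h2.trans ?_
    rw [← Real.rpow_natCast g a]
    exact Real.rpow_le_rpow_of_exponent_le hg1 (Nat.le_ceil _)
  have hdg : (d : ℝ) ≤ g ^ (a * A) := by
    calc (d : ℝ) ≤ (N : ℝ) ^ A := by exact_mod_cast hd
      _ ≤ (g ^ a) ^ A := pow_le_pow_left₀ (by positivity) hNg _
      _ = g ^ (a * A) := (pow_mul _ _ _).symm
  -- patterns outside Xs
  have hWex : ∀ j : ℕ, ∃ W : Finset (Fin N), W ⊆ Xsᶜ ∧ (j ≤ N - M → W.card = j) := by
    intro j
    by_cases hj : j ≤ N - M
    · have : j ≤ (Xsᶜ).card := by rw [Finset.card_compl, Fintype.card_fin]; exact hj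
      obtain ⟨W, h1, h2⟩ := Finset.exists_subset_card_eq this
      exact ⟨W, h1, fun _ => h2⟩
    · exact ⟨∅, Finset.empty_subset _, fun h => absurd h hj⟩
  choose W hW1 hW2 using hWex
  -- bad restrictions
  set I : Finset (ℕ × ℕ × ℕ × (Fin w → Bool)) :=
    (range (N + 1)) ×ˢ (range (d + 1)) ×ˢ (range (d + 1)) ×ˢ univ with hI
  set Bad : ({v // v ∈ Xs} → Option Bool) → Prop := fun ρ => ∃ t ∈ I,
    (t.2.1 + t.2.2.1 ≤ d ∧ ∀ j, t.2.1 ≤ j → j < t.2.1 + t.2.2.1 → ¬ spec j) ∧
    ¬ Loc K (fun x => run (fun i x => F (t.2.1 + i) (asm Xs (W t.1) x)) (app ρ x) t.2.2.1)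
      {t.2.2.2} with hBad
  have hbad : mu (1 / g) Bad < 1 / (2 * g) := by
    have h1 : mu (1 / g) Bad ≤ I.card * (1 / g ^ b) := by
      refine mu_union_le hp0 hp1 _ _ ?_
      rintro ⟨j, l, n, s⟩ _
      by_cases hcond : l + n ≤ d ∧ ∀ j, l ≤ j → j < l + n → ¬ spec j
      · refine le_trans (mu_mono hp0 hp1 fun ρ hρ => hρ.2) ?_
        have hgood : Good (fun i x => F (l + i) (asm Xs (W j) x))
            (fun i => if i = 0 then {s} else univ)
            (fun i => univ.filter fun v : {v // v ∈ Xs} => v.1 ∈ R (l + i)) (2 * w) (2 ^ w) n := by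
          refine ⟨?_, ?_, ?_, ?_, ?_, ?_⟩
          · intro i hi x u _
            simp
          · intro i hi x y hxy u _ t _ hut
            refine hmono (l + i) (by omega) (hcond.2 (l + i) (by omega) (by omega)) _ _
              (asm_mono Xs _ hxy) (fun v hv => ?_) u t hut
            simp [asm, hv]
          · intro i hi x y hxy u _
            refine hloc (l + i) (by omega) _ _ (fun v hv => ?_) u
            unfold asm
            split_ifs with hvX
            · exact hxy ⟨v, hvX⟩ (by simp [hv])
            · rfl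
          · intro i hi
            refine le_trans ?_ (hR (l + i) (by omega))
            refine Finset.card_le_card_of_injOn (fun v => v.1) ?_ ?_
            · intro v hv
              have hv' := (Finset.mem_filter.1 (Finset.mem_coe.1 hv)).2
              exact hv'
            · intro u _ v _ h
              exact Subtype.ext h
          · simp
          · intro i hi0 _
            simp only [hi0.ne', if_false]
            simp
        have := hg0 g hgg0 {v // v ∈ Xs} (Fin w → Bool) _ _ _ n hgood
          (by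
            refine le_trans ?_ hdg
            exact_mod_cast (by omega : n ≤ d))
        simpa using this
      · exact mu_le_of_forall_not hp0 hp1 (by positivity) _ fun ρ hρ => hcond hρ.1
    refine lt_of_le_of_lt h1 ?_
    have hIc : (I.card : ℝ) = ((N : ℝ) + 1) * (((d : ℝ) + 1) * (((d : ℝ) + 1) * 2 ^ w)) := by
      rw [hI]
      simp only [Finset.card_product, Finset.card_range, Finset.card_univ, Fintype.card_fun,
        Fintype.card_bool, Fintype.card_fin]
      push_cast; ring
    rw [hIc]
    have e1 : (N : ℝ) + 1 ≤ 2 * g ^ a := by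
      have : (1 : ℝ) ≤ g ^ a := one_le_pow₀ hg1
      linarith
    have e2 : (d : ℝ) + 1 ≤ 2 * g ^ (a * A) := by
      have : (1 : ℝ) ≤ g ^ (a * A) := one_le_pow₀ hg1
      linarith
    have e3 : ((N : ℝ) + 1) * (((d : ℝ) + 1) * (((d : ℝ) + 1) * 2 ^ w)) ≤
        (2 * g ^ a) * ((2 * g ^ (a * A)) * ((2 * g ^ (a * A)) * 2 ^ w)) := by
      gcongr
    have e4 : (2 * g ^ a) * ((2 * g ^ (a * A)) * ((2 * g ^ (a * A)) * 2 ^ w)) * g ^ 2 =
        2 ^ (w + 3) * g ^ b := by
      rw [hb]; ring
    have hgb : (0 : ℝ) < g ^ b := by positivity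
    rw [mul_one_div, div_lt_div_iff₀ hgb (by positivity), one_mul]
    have e5 : (2 : ℝ) ^ (w + 4) < g := by linarith
    have e6 : (2 : ℝ) ^ (w + 4) = 2 * 2 ^ (w + 3) := by ring
    have e7 : ((N : ℝ) + 1) * (((d : ℝ) + 1) * (((d : ℝ) + 1) * 2 ^ w)) * (2 * g) * g ≤
        2 * (2 ^ (w + 3) * g ^ b) := by
      rw [← e4]
      have := mul_le_mul_of_nonneg_right e3 (by positivity : (0 : ℝ) ≤ 2 * g ^ 2)
      calc _ = ((N : ℝ) + 1) * (((d : ℝ) + 1) * (((d : ℝ) + 1) * 2 ^ w)) * (2 * g ^ 2) := by ring
        _ ≤ _ := this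
        _ = _ := by ring
    have e8 : 2 * (2 ^ (w + 3) * g ^ b) < g ^ b * g := by
      have := mul_lt_mul_of_pos_left e5 hgb
      rw [e6] at this
      linarith
    exact lt_of_mul_lt_mul_right (lt_of_le_of_lt e7 e8) hgpos.le
  have hcX : Fintype.card {v // v ∈ Xs} = M := Fintype.card_coe Xs
  have hMpos : 0 < M := by exact_mod_cast hM0
  obtain ⟨ρ, hρ, hstars⟩ := exists_good hg1 Bad (by rw [hcX]; exact hMpos) hbad
  rw [hcX] at hstars
  -- choice of the pattern
  set o1 := (univ.filter fun v => ρ v = some true).card with ho1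
  have ho1M : o1 ≤ M := by rw [← hcX]; exact Finset.card_le_univ _
  set j := k - 1 - o1 with hj
  have hjN : j ≤ N - M := by omega
  have hWj := hW2 j hjN
  have hWd : Disjoint (W j) Xs := by
    rw [Finset.disjoint_left]
    intro v hv hvX
    exact (Finset.mem_compl.1 (hW1 j hv)) hvX
  -- total dependence
  obtain ⟨L, hL1, hL2⟩ := dep_total (fun i x => F i (asm Xs (W j) (app ρ x))) spec d
    (2 ^ w * K) (2 * w) (by
      intro l n hln hns
      have hseg : ∀ s : Fin w → Bool, ∃ L : Finset {v // v ∈ Xs}, L.card ≤ K ∧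
          ∀ x y : {v // v ∈ Xs} → Bool, (∀ v ∈ L, x v = y v) →
          run (fun i x => F (l + i) (asm Xs (W j) x)) (app ρ x) n s =
          run (fun i x => F (l + i) (asm Xs (W j) x)) (app ρ y) n s := by
        intro s
        by_contra hno
        apply hρ
        refine ⟨(j, l, n, s), ?_, ⟨hln, hns⟩, ?_⟩
        · rw [hI]
          simp only [Finset.mem_product, Finset.mem_range, Finset.mem_univ, and_true]
          omega
        · intro hL
          obtain ⟨L, h1, h2⟩ := hL
          exact hno ⟨L, h1, fun x y hxy => h2 x y hxy s (Finset.mem_singleton_self s)⟩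
      choose L hL1 hL2 using hseg
      refine ⟨univ.biUnion L, ?_, fun x y hxy s => ?_⟩
      · refine (Finset.card_biUnion_le_card_mul _ _ K fun s _ => hL1 s).trans (le_of_eq ?_)
        simp
      · have h3 := hL2 s x y fun v hv => hxy v (Finset.mem_biUnion.2 ⟨s, Finset.mem_univ s, hv⟩)
        rw [← run_app, ← run_app] at h3
        exact h3) (by
      intro i hi
      refine ⟨univ.filter fun v : {v // v ∈ Xs} => v.1 ∈ R i, ?_, fun x y hxy s => ?_⟩
      · refine le_trans ?_ (hR i hi)
        refine Finset.card_le_card_of_injOn (fun v => v.1) ?_ ?_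
        · intro v hv
          exact (Finset.mem_filter.1 (Finset.mem_coe.1 hv)).2
        · intro u _ v _ h
          exact Subtype.ext h
      · refine hloc i hi _ _ (fun v hv => ?_) s
        unfold asm
        split_ifs with hvX
        · exact app_agree ρ (hxy ⟨v, hvX⟩ (by simp [hv]))
        · rfl) d le_rfl
  have hcount : ∀ x : {v // v ∈ Xs} → Bool,
      run (fun i x => F i (asm Xs (W j) (app ρ x))) x d s0 o =
        decide (k ≤ (univ.filter fun v => app ρ x v = true).card + j) := by
    intro x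
    have h1 := run_pre' F (fun x : {v // v ∈ Xs} → Bool => asm Xs (W j) (app ρ x)) x d s0
    rw [h1, hcomp, card_asm Xs (W j) hWd, hWj]
  have hsub : (univ.filter fun v => ρ v = none) ⊆ L := by
    intro v hv
    rw [Finset.mem_filter] at hv
    by_contra hvL
    have h1 := hL2 (fun _ => false) (fun u => decide (u = v)) (by
      intro u hu
      have : u ≠ v := fun h => hvL (h ▸ hu)
      simp [this]) s0
    have h2 := congrFun h1 o
    rw [hcount, hcount] at h2
    have c1 : (univ.filter fun u => app ρ (fun _ => false) u = true) =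
        univ.filter fun u => ρ u = some true := by
      apply Finset.filter_congr
      intro u _
      unfold app
      rcases ρ u with _ | _ | _ <;> simp
    have c2 : (univ.filter fun u => app ρ (fun u => decide (u = v)) u = true) =
        insert v (univ.filter fun u => ρ u = some true) := by
      ext u
      simp only [Finset.mem_filter, Finset.mem_univ, true_and, Finset.mem_insert]
      unfold app
      by_cases huv : u = v
      · subst huv; simp [hv.2]
      · rcases ρ u with _ | _ | _ <;> simp [huv]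
    rw [c1, c2, Finset.card_insert_of_notMem (by simp [hv.2]), ← ho1] at h2
    rw [decide_eq_decide] at h2
    omega
  -- final count
  set r := ((range d).filter spec).card with hr
  have hfin : (M : ℝ) / (2 * g) ≤ ((r : ℝ) + 1) * K2 := by
    refine hstars.trans ?_
    have := (Finset.card_le_card hsub).trans hL1
    exact_mod_cast this
  by_contra hcon
  push Not at hcon
  have hMe : (1 : ℝ) ≤ (M : ℝ) ^ (1 - ε) := Real.one_le_rpow hM1r (by linarith)
  have hMg : (M : ℝ) = g * (g * (M : ℝ) ^ (1 - ε)) := by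
    rw [hg, ← Real.rpow_add hM0, ← Real.rpow_add hM0]
    rw [show ε / 2 + (ε / 2 + (1 - ε)) = 1 by ring, Real.rpow_one]
  have h1 : (M : ℝ) / (2 * g) = g * (M : ℝ) ^ (1 - ε) / 2 := by
    conv_lhs => rw [hMg]
    field_simp
  rw [h1] at hfin
  have hK2nn : (0 : ℝ) ≤ K2 := by positivity
  have h2 : ((r : ℝ) + 1) * K2 ≤ 2 * (M : ℝ) ^ (1 - ε) * K2 :=
    mul_le_mul_of_nonneg_right (by linarith) hK2nn
  nlinarith

end Pool.Agent.V7H66.Wid
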