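import Pool.Agent.V7H66.Wid.Prog

/-!
The locality claim and the window lemma.
-/

namespace Pool.Agent.V7H66.Wid

open Finset Filter

/-- After a random restriction with star probability `1/g`, a monotone program of length at most
`g^a` is `K`-local except with probability `g^{-b}`. -/
def Claim (k q : ℕ) : Prop := ∀ a b : ℕ, ∃ K : ℕ, ∀ᶠ g : ℝ in atTop,
  ∀ (X S : Type) [Fintype X] [DecidableEq X] [PartialOrder S]
    (E : ℕ → (X → Bool) → S → S) (P : ℕ → Finset S) (V : ℕ → Finset X) (m : ℕ),
    Good E P V k q m → (m : ℝ) ≤ g ^ a →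
      mu (1 / g) (fun ρ : X → Option Bool =>
        ¬ Loc K (fun x => run E (app ρ x) m) (P 0)) ≤ 1 / g ^ b

lemma mu_le_of_forall_not {X : Type} [Fintype X] [DecidableEq X] {p c : ℝ} (h0 : 0 ≤ p)
    (h1 : p ≤ 1) (hc : 0 ≤ c) (A : (X → Option Bool) → Prop) (h : ∀ ρ, ¬ A ρ) : mu p A ≤ c :=
  (mu_mono h0 h1 (B := fun _ => False) h).trans (by rw [mu_false]; exact hc)

lemma claim_zero (q : ℕ) : Claim 0 q := by
  intro a b
  refine ⟨0, ?_⟩
  filter_upwards [eventually_ge_atTop (1 : ℝ)] with g hg
  intro X S _ _ _ E P V m hgood _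
  have hg0 : (0 : ℝ) < g := by linarith
  refine mu_le_of_forall_not (by positivity) (by rw [div_le_one hg0]; exact hg) (by positivity) _ ?_
  intro ρ hρ
  apply hρ
  refine ⟨∅, by simp, fun x y _ s hs => ?_⟩
  refine run_congr (P := P) (fun i hi s hs => hgood.maps i hi _ s hs) (fun i hi s hs => ?_) hs
  refine hgood.loc i hi _ _ ?_ s hs
  intro v hv
  have := hgood.width i hi
  rw [Nat.le_zero, Finset.card_eq_zero] at this
  rw [this] at hv
  simp at hv

lemma claim_one (k : ℕ) : Claim k 1 := by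
  intro a b
  refine ⟨k, ?_⟩
  filter_upwards [eventually_ge_atTop (1 : ℝ)] with g hg
  intro X S _ _ _ E P V m hgood _
  have hg0 : (0 : ℝ) < g := by linarith
  refine mu_le_of_forall_not (by positivity) (by rw [div_le_one hg0]; exact hg) (by positivity) _ ?_
  intro ρ hρ
  apply hρ
  cases m with
  | zero => exact ⟨∅, by simp, fun x y _ s _ => rfl⟩
  | succ m =>
    refine ⟨V m, hgood.width m (Nat.lt_succ_self m), fun x y hxy s hs => ?_⟩
    show E m (app ρ x) (run E (app ρ x) m s) = E m (app ρ y) (run E (app ρ y) m s)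
    have hm1 : ∀ z, run E z m s ∈ P m := fun z =>
      run_mem (fun i hi s hs => hgood.maps i (by omega) z s hs) hs
    have hcard : (P m).card ≤ 1 := by
      rcases Nat.eq_zero_or_pos m with h | h
      · subst h; exact hgood.start
      · exact hgood.states m h (Nat.lt_succ_self m)
    rw [Finset.card_le_one.1 hcard _ (hm1 (app ρ x)) _ (hm1 (app ρ y))]
    exact hgood.loc m (Nat.lt_succ_self m) _ _ (fun v hv => app_agree ρ (hxy v hv)) _ (hm1 _)

variable {X S : Type} [Fintype X] [DecidableEq X] [PartialOrder S]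

/-- instruction `t` is fixed by `ρ` to a non-injective map -/
def Forced (E : ℕ → (X → Bool) → S → S) (P : ℕ → Finset S) (V : ℕ → Finset X)
    (ρ : X → Option Bool) (t : ℕ) : Prop :=
  (∀ v ∈ V t, ρ v ≠ none) ∧ ¬ Set.InjOn (E t (app ρ fun _ => false)) (P t : Set S)

lemma mu_match {p : ℝ} (W : Finset X) (d : X → Bool) :
    mu p (fun ρ => ∀ v ∈ W, ρ v = some (d v)) = ((1 - p) / 2) ^ W.card := by
  classical
  unfold mu
  have h1 : (fun ρ : X → Option Bool => ind (∀ v ∈ W, ρ v = some (d v))) =
      fun ρ => ∏ v, (if v ∈ W then (if ρ v = some (d v) then (1 : ℝ) else 0) else 1) := by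
    funext ρ
    by_cases h : (∀ v ∈ W, ρ v = some (d v))
    · rw [ind_true h]
      symm
      refine Finset.prod_eq_one fun v _ => ?_
      by_cases hv : v ∈ W
      · simp [hv, h v hv]
      · simp [hv]
    · rw [ind_false h]
      push Not at h
      obtain ⟨v, hv, hne⟩ := h
      symm
      refine Finset.prod_eq_zero (Finset.mem_univ v) ?_
      simp [hv, hne]
  have h2 := Ex_prod (X := X) p (fun v o => if v ∈ W then (if o = some (d v) then (1 : ℝ) else 0) else 1)
  calc _ = Ex p (fun ρ : X → Option Bool =>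
        ∏ v, (if v ∈ W then (if ρ v = some (d v) then (1 : ℝ) else 0) else 1)) := by
        rw [← h1]
    _ = _ := h2
    _ = ∏ v, (if v ∈ W then (1 - p) / 2 else 1) := by
        refine Finset.prod_congr rfl fun v _ => ?_
        by_cases hv : v ∈ W
        · simp only [hv, if_true, Fintype.sum_option, Fintype.sum_bool, w1]
          cases d v <;> simp
        · simp only [hv, if_false, mul_one, sum_w1]
    _ = _ := by rw [Finset.prod_ite_mem, Finset.univ_inter, Finset.prod_const]

lemma mu_not (p : ℝ) (A : (X → Option Bool) → Prop) :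
    mu p (fun ρ => ¬ A ρ) = 1 - mu p A := by
  have h : mu p (fun ρ => ¬ A ρ) + mu p A = 1 := by
    unfold mu
    rw [← Ex_add]
    refine Eq.trans ?_ (Ex_one (X := X) p)
    congr 1
    funext ρ
    by_cases hA : A ρ <;> simp [hA, ind]
  linarith

/-- probability that no pattern of a disjoint family is matched -/
lemma mu_nomatch {p δ : ℝ} (h0 : 0 ≤ p) (h1 : p ≤ 1) (V : ℕ → Finset X) (d : ℕ → X → Bool)
    (hδ0 : 0 ≤ δ) (F : Finset ℕ) (hd : (F : Set ℕ).PairwiseDisjoint V)
    (hδ : ∀ t ∈ F, 1 - ((1 - p) / 2) ^ (V t).card ≤ δ) :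
    mu p (fun ρ => ∀ t ∈ F, ¬ ∀ v ∈ V t, ρ v = some (d t v)) ≤ δ ^ F.card := by
  classical
  induction F using Finset.induction_on with
  | empty =>
    simp only [Finset.card_empty, pow_zero]
    unfold mu
    exact (Ex_mono h0 h1 (g := fun _ => 1) fun ρ => ind_le_one _).trans (Ex_one p).le
  | insert t0 F ht0 ih =>
    have hd' : (F : Set ℕ).PairwiseDisjoint V := hd.subset (by simp)
    have ih' := ih hd' (fun t ht => hδ t (Finset.mem_insert_of_mem ht))
    have hdis : ∀ t ∈ F, Disjoint (V t0) (V t) := fun t ht =>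
      hd (by simp) (by simp [ht]) (by rintro rfl; exact ht0 ht)
    have hprod : mu p (fun ρ => ∀ t ∈ insert t0 F, ¬ ∀ v ∈ V t, ρ v = some (d t v)) =
        mu p (fun ρ => ¬ ∀ v ∈ V t0, ρ v = some (d t0 v)) *
          mu p (fun ρ => ∀ t ∈ F, ¬ ∀ v ∈ V t, ρ v = some (d t v)) := by
      unfold mu
      rw [← indep p (V t0)]
      · congr 1
        funext ρ
        have hins : (∀ t ∈ insert t0 F, ¬ ∀ v ∈ V t, ρ v = some (d t v)) ↔
          (¬ ∀ v ∈ V t0, ρ v = some (d t0 v)) ∧ (∀ t ∈ F, ¬ ∀ v ∈ V t, ρ v = some (d t v)) :=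
          Finset.forall_mem_insert _ _ _
        show ind (∀ t ∈ insert t0 F, ¬ ∀ v ∈ V t, ρ v = some (d t v)) = _
        rw [ind_congr hins, ind_and]
      · intro ρ τ h
        have : (∀ v ∈ V t0, ρ v = some (d t0 v)) ↔ (∀ v ∈ V t0, τ v = some (d t0 v)) :=
          forall₂_congr fun v hv => by rw [h v hv]
        exact ind_congr (not_congr this)
      · intro ρ τ h
        have : (∀ t ∈ F, ¬ ∀ v ∈ V t, ρ v = some (d t v)) ↔
            (∀ t ∈ F, ¬ ∀ v ∈ V t, τ v = some (d t v)) := by
          refine forall₂_congr fun t ht => not_congr (forall₂_congr fun v hv => ?_)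
          rw [h v (Finset.disjoint_right.1 (hdis t ht) hv)]
        exact ind_congr this
    rw [hprod, Finset.card_insert_of_notMem ht0, pow_succ', mu_not, mu_match]
    refine mul_le_mul (hδ t0 (Finset.mem_insert_self _ _)) ih' (mu_nonneg h0 h1 _) hδ0

/-- few stars in a small set -/
lemma mu_stars {g : ℝ} (hg : 1 ≤ g) (H : Finset X) (c : ℕ) :
    g ^ c * mu (1 / g) (fun ρ => c ≤ (H.filter fun v => ρ v = none).card) ≤ 2 ^ H.card := by
  classical
  have hg0 : (0 : ℝ) < g := by linarith
  have hp0 : (0 : ℝ) ≤ 1 / g := by positivity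
  have hp1 : 1 / g ≤ 1 := by rw [div_le_one hg0]; exact hg
  have hval : ∀ ρ : X → Option Bool, ∏ v, (if v ∈ H ∧ ρ v = none then g else 1) =
      g ^ (H.filter fun v => ρ v = none).card := by
    intro ρ
    rw [← Finset.prod_filter, Finset.prod_const]
    congr 2
    ext v; simp
  refine (mu_markov hp0 hp1 _ (fun ρ => ∏ v, (if v ∈ H ∧ ρ v = none then g else 1)) ?_ ?_).trans ?_
  · intro ρ; rw [hval]; positivity
  · intro ρ h; rw [hval]; exact pow_le_pow_right₀ hg h
  · have h2 := Ex_prod (X := X) (1 / g) (fun v o => if v ∈ H ∧ o = none then g else 1)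
    refine h2.le.trans ?_
    have h3 : ∀ v : X, ∑ o, w1 (1 / g) o * (if v ∈ H ∧ o = none then g else 1) =
        if v ∈ H then 2 - 1 / g else 1 := by
      intro v
      by_cases hv : v ∈ H
      · simp only [hv, true_and, if_true, Fintype.sum_option, Fintype.sum_bool, w1]
        simp
        field_simp
        ring
      · simp only [hv, false_and, if_false, mul_one, sum_w1]
    simp_rw [h3]
    rw [Finset.prod_ite_mem, Finset.univ_inter, Finset.prod_const]
    refine pow_le_pow_left₀ ?_ ?_ _ <;> linarith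

lemma run_pre (E : ℕ → (X → Bool) → S → S) (φ : (X → Bool) → (X → Bool)) (x : X → Bool)
    (n : ℕ) (s : S) : run (fun i x => E i (φ x)) x n s = run E (φ x) n s := by
  induction n with
  | zero => rfl
  | succ n ih => show E n (φ x) (run (fun i x => E i (φ x)) x n s) = _; rw [ih]; rfl

/-- override the coordinates of `H` by the indicator of `U` -/
def ovr (H U : Finset X) (x : X → Bool) : X → Bool :=
  fun v => if v ∈ H then decide (v ∈ U) else x v

lemma ovr_mono (H U : Finset X) {x y : X → Bool} (h : x ≤ y) : ovr H U x ≤ ovr H U y := by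
  intro v
  unfold ovr
  split_ifs
  · exact le_rfl
  · exact h v

lemma det {E : ℕ → (X → Bool) → S → S} {P0 : Finset S} {n : ℕ} {ρ : X → Option Bool}
    {H : Finset X} {c q K' : ℕ} (hq : P0.card ≤ q)
    (hT : (H.filter fun v => ρ v = none).card ≤ c)
    (hL : ∀ U ∈ H.powerset, ∀ s ∈ P0, Loc K' (fun x => run E (ovr H U (app ρ x)) n) {s}) :
    Loc (c + 2 ^ c * (q * K')) (fun x => run E (app ρ x) n) P0 := by
  classical
  have hL' : ∀ U ∈ H.powerset, ∀ s ∈ P0, ∃ L : Finset X, L.card ≤ K' ∧
      ∀ x y : X → Bool, (∀ v ∈ L, x v = y v) →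
        run E (ovr H U (app ρ x)) n s = run E (ovr H U (app ρ y)) n s := by
    intro U hU s hs
    obtain ⟨L, h1, h2⟩ := hL U hU s hs
    exact ⟨L, h1, fun x y hxy => h2 x y hxy s (Finset.mem_singleton_self s)⟩
  choose! L hL1 hL2 using hL'
  set T := H.filter fun v => ρ v = none with hTdef
  set A := H.filter fun v => ρ v = some true with hAdef
  have hAU : ∀ U' ∈ T.powerset, A ∪ U' ∈ H.powerset := by
    intro U' hU'
    rw [Finset.mem_powerset] at hU' ⊢
    exact Finset.union_subset (Finset.filter_subset _ _) (hU'.trans (Finset.filter_subset _ _))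
  refine ⟨T ∪ T.powerset.biUnion (fun U' => P0.biUnion (fun s => L (A ∪ U') s)), ?_, ?_⟩
  · refine (Finset.card_union_le _ _).trans (Nat.add_le_add hT ?_)
    refine (Finset.card_biUnion_le_card_mul _ _ (q * K') ?_).trans ?_
    · intro U' hU'
      refine (Finset.card_biUnion_le_card_mul _ _ K' fun s hs => hL1 _ (hAU U' hU') s hs).trans ?_
      exact Nat.mul_le_mul_right _ hq
    · rw [Finset.card_powerset]
      exact Nat.mul_le_mul_right _ (Nat.pow_le_pow_right (by norm_num) hT)
  · intro x y hxy s hs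
    have hxyT : ∀ v ∈ T, x v = y v := fun v hv => hxy v (Finset.mem_union_left _ hv)
    have hov : ∀ z : X → Bool, ovr H (A ∪ T.filter fun v => z v = true) (app ρ z) = app ρ z := by
      intro z
      funext v
      unfold ovr
      split_ifs with hv
      · simp only [app, hAdef, hTdef, Finset.mem_union, Finset.mem_filter, hv, true_and]
        rcases ρ v with _ | _ | _ <;> simp
      · rfl
    have hU : (T.filter fun v => x v = true) = T.filter fun v => y v = true :=
      Finset.filter_congr fun v hv => by rw [hxyT v hv]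
    have hUm : (T.filter fun v => y v = true) ∈ T.powerset := by
      rw [Finset.mem_powerset]; exact Finset.filter_subset _ _
    show run E (app ρ x) n s = run E (app ρ y) n s
    rw [← hov x, ← hov y, hU]
    refine hL2 _ (hAU _ hUm) s hs x y fun v hv => hxy v ?_
    refine Finset.mem_union_right _ (Finset.mem_biUnion.2 ⟨_, hUm, Finset.mem_biUnion.2 ⟨s, hs, hv⟩⟩)

/-- maximal disjoint subfamily -/
lemma exists_family (D : Finset ℕ) (V : ℕ → Finset X) (hne : ∀ t ∈ D, (V t).Nonempty) :
    ∃ F ⊆ D, (F : Set ℕ).PairwiseDisjoint V ∧ ∀ t ∈ D, ¬ Disjoint (V t) (F.biUnion V) := by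
  classical
  have h0 : (D.powerset.filter fun F : Finset ℕ => (F : Set ℕ).PairwiseDisjoint V).Nonempty :=
    ⟨∅, by simp⟩
  obtain ⟨F, hF, hmax⟩ := Finset.exists_max_image _ (fun F : Finset ℕ => F.card) h0
  rw [Finset.mem_filter, Finset.mem_powerset] at hF
  refine ⟨F, hF.1, hF.2, fun t ht hdis => ?_⟩
  rw [Finset.disjoint_biUnion_right] at hdis
  have htF : t ∉ F := by
    intro htF
    have := hdis t htF
    rw [disjoint_self, Finset.bot_eq_empty] at this
    exact (hne t ht).ne_empty this
  have := hmax (insert t F) (by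
    rw [Finset.mem_filter, Finset.mem_powerset]
    refine ⟨Finset.insert_subset ht hF.1, ?_⟩
    rw [Finset.coe_insert, Set.pairwiseDisjoint_insert_of_notMem (by simpa using htF)]
    exact ⟨hF.2, fun j hj => hdis j (by simpa using hj)⟩)
  rw [Finset.card_insert_of_notMem htF] at this
  omega

/-- window lemma -/
lemma mid (k q : ℕ) (hC : Claim k q) (a b : ℕ) : ∃ K : ℕ, ∀ᶠ g : ℝ in atTop,
    ∀ (X S : Type) [Fintype X] [DecidableEq X] [PartialOrder S]
      (E : ℕ → (X → Bool) → S → S) (P : ℕ → Finset S) (V : ℕ → Finset X) (n : ℕ),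
      (∀ i < n, ∀ x, ∀ s ∈ P i, E i x s ∈ P (i + 1)) →
      (∀ i < n, ∀ x y : X → Bool, x ≤ y → ∀ s ∈ P i, ∀ t ∈ P i, s ≤ t → E i x s ≤ E i y t) →
      (∀ i < n, ∀ x y : X → Bool, (∀ v ∈ V i, x v = y v) → ∀ s ∈ P i, E i x s = E i y s) →
      (∀ i < n, (V i).card ≤ k + 1) → (∀ i ≤ n, (P i).card = q) → (n : ℝ) ≤ g ^ a →
      mu (1 / g) (fun ρ : X → Option Bool => (∀ t < n, ¬ Forced E P V ρ t) ∧
        ¬ Loc K (fun x => run E (app ρ x) n) (P 0)) ≤ 1 / g ^ b := by
  classical
  obtain ⟨r, hr⟩ : ∃ r : ℕ, (1 - (1 / 4 : ℝ) ^ (k + 1)) ^ r < 1 / 2 := by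
    refine exists_pow_lt_of_lt_one (by norm_num) ?_
    have : (0 : ℝ) < (1 / 4 : ℝ) ^ (k + 1) := by positivity
    linarith
  set δ : ℝ := 1 - (1 / 4 : ℝ) ^ (k + 1) with hδdef
  have hδ0 : 0 ≤ δ := by
    have : (1 / 4 : ℝ) ^ (k + 1) ≤ 1 := pow_le_one₀ (by norm_num) (by norm_num)
    rw [hδdef]; linarith
  have hδ1 : δ ≤ 1 := by
    have : (0 : ℝ) < (1 / 4 : ℝ) ^ (k + 1) := by positivity
    rw [hδdef]; linarith
  set B : ℕ := (b + 2) * ((k + 1) * r) with hB
  obtain ⟨K', hK'⟩ := hC a (B + b + 1)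
  refine ⟨(B + b) + 2 ^ (B + b) * (q * K'), ?_⟩
  filter_upwards [hK', eventually_ge_atTop (2 : ℝ), eventually_ge_atTop ((q : ℝ) + 1)] with g hIH hg2 hgq
  intro X S _ _ _ E P V n hmaps hmono hloc hwidth hcard hn
  have hg0 : (0 : ℝ) < g := by linarith
  have hg1 : (1 : ℝ) ≤ g := by linarith
  have hp0 : (0 : ℝ) ≤ 1 / g := by positivity
  have hp1 : 1 / g ≤ 1 := by rw [div_le_one hg0]; exact hg1
  have hp2 : 1 / g ≤ 1 / 2 := one_div_le_one_div_of_le (by norm_num) hg2
  obtain ⟨j0, hj1, hj2⟩ := exists_nat_pow_near (one_le_pow₀ hg1 : 1 ≤ g ^ (b + 1))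
    (by norm_num : (1 : ℝ) < 2)
  set j := j0 + 1 with hj
  have hjg : (2 : ℝ) ^ j ≤ 2 * g ^ (b + 1) := by rw [hj, pow_succ]; linarith
  -- nonconstant instructions
  set D : Finset ℕ := (range n).filter fun t => ∃ x y, ∃ s ∈ P t, E t x s ≠ E t y s with hD
  have hVne : ∀ t ∈ D, (V t).Nonempty := by
    intro t ht
    rw [hD, Finset.mem_filter, Finset.mem_range] at ht
    obtain ⟨htn, x, y, s, hs, hne⟩ := ht
    rw [Finset.nonempty_iff_ne_empty]
    intro h0
    exact hne (hloc t htn x y (by rw [h0]; simp) s hs)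
  have hdrop : ∀ t ∈ D, ∃ x : X → Bool, ¬ Set.InjOn (E t x) (P t : Set S) := by
    intro t ht
    rw [hD, Finset.mem_filter, Finset.mem_range] at ht
    obtain ⟨htn, x, y, s, hs, hne⟩ := ht
    by_contra hinj
    push Not at hinj
    have hbot : ∀ z : X → Bool, E t (fun _ => false) s = E t z s := fun z =>
      bij_eq (by rw [hcard t htn.le, hcard (t + 1) htn])
        (hmaps t htn _) (hmaps t htn z) (hinj _) (hinj z)
        (fun u hu => hmono t htn _ z (fun v => Bool.false_le _) u hu u hu le_rfl) s hs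
    exact hne ((hbot x).symm.trans (hbot y))
  choose! d hd using hdrop
  obtain ⟨F, hFD, hFdis, hFmax⟩ := exists_family D V hVne
  have hDn : ∀ t ∈ D, t < n := fun t ht => by
    rw [hD, Finset.mem_filter, Finset.mem_range] at ht; exact ht.1
  have hgb : (0 : ℝ) < g ^ b := by positivity
  by_cases hFM : r * j ≤ F.card
  · -- many disjoint nonconstant instructions
    have h1 : mu (1 / g) (fun ρ : X → Option Bool => (∀ t < n, ¬ Forced E P V ρ t) ∧
        ¬ Loc ((B + b) + 2 ^ (B + b) * (q * K')) (fun x => run E (app ρ x) n) (P 0)) ≤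
        mu (1 / g) (fun ρ => ∀ t ∈ F, ¬ ∀ v ∈ V t, ρ v = some (d t v)) := by
      refine mu_mono hp0 hp1 fun ρ hρ t ht hm => hρ.1 t (hDn t (hFD ht)) ⟨?_, ?_⟩
      · intro v hv; rw [hm v hv]; simp
      · intro hinj
        apply hd t (hFD ht)
        intro u hu u' hu' he
        refine hinj hu hu' ?_
        have hag : ∀ v ∈ V t, app ρ (fun _ => false) v = d t v := fun v hv => by
          simp [app, hm v hv]
        rw [hloc t (hDn t (hFD ht)) _ _ hag u hu, hloc t (hDn t (hFD ht)) _ _ hag u' hu', he]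
    have h2 : mu (1 / g) (fun ρ : X → Option Bool => ∀ t ∈ F, ¬ ∀ v ∈ V t, ρ v = some (d t v)) ≤
        δ ^ F.card := by
      refine mu_nomatch hp0 hp1 V d hδ0 F hFdis fun t ht => ?_
      have h3 : (1 / 4 : ℝ) ^ (k + 1) ≤ (1 / 4 : ℝ) ^ (V t).card :=
        pow_le_pow_of_le_one (by norm_num) (by norm_num) (hwidth t (hDn t (hFD ht)))
      have h4 : (1 / 4 : ℝ) ^ (V t).card ≤ ((1 - 1 / g) / 2) ^ (V t).card :=
        pow_le_pow_left₀ (by norm_num) (by linarith) _
      rw [hδdef]; linarith
    have h5 : δ ^ F.card ≤ 1 / g ^ b := by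
      calc δ ^ F.card ≤ δ ^ (r * j) := pow_le_pow_of_le_one hδ0 hδ1 hFM
        _ = (δ ^ r) ^ j := pow_mul _ _ _
        _ ≤ (1 / 2) ^ j := pow_le_pow_left₀ (by positivity) hr.le _
        _ = 1 / 2 ^ j := by rw [one_div_pow]
        _ ≤ 1 / g ^ (b + 1) := one_div_le_one_div_of_le (by positivity) hj2.le
        _ ≤ 1 / g ^ b := one_div_le_one_div_of_le hgb (pow_le_pow_right₀ hg1 (Nat.le_succ b))
    exact h1.trans (h2.trans h5)
  · -- few
    push Not at hFM
    set H := F.biUnion V with hH
    have hHc : H.card ≤ (r * j) * (k + 1) := by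
      refine (Finset.card_biUnion_le_card_mul _ _ (k + 1) fun t ht =>
        hwidth t (hDn t (hFD ht))).trans ?_
      exact Nat.mul_le_mul_right _ hFM.le
    have h2H : (2 : ℝ) ^ H.card ≤ g ^ B := by
      calc (2 : ℝ) ^ H.card ≤ 2 ^ ((r * j) * (k + 1)) := pow_le_pow_right₀ (by norm_num) hHc
        _ = (2 ^ j) ^ ((k + 1) * r) := by rw [← pow_mul]; congr 1; ring
        _ ≤ (g ^ (b + 2)) ^ ((k + 1) * r) := by
            refine pow_le_pow_left₀ (by positivity) ?_ _
            refine hjg.trans ?_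
            rw [pow_succ g (b + 1), mul_comm]
            exact mul_le_mul_of_nonneg_left hg2 (by positivity)
        _ = g ^ B := by rw [← pow_mul]
    -- the conditioned programs
    have hcond : ∀ U ∈ H.powerset, ∀ s ∈ P 0,
        mu (1 / g) (fun ρ : X → Option Bool =>
          ¬ Loc K' (fun x => run E (ovr H U (app ρ x)) n) {s}) ≤ 1 / g ^ (B + b + 1) := by
      intro U hU s hs
      have hgood : Good (fun t x => E t (ovr H U x)) (fun i => if i = 0 then {s} else P i)
          (fun t => if t ∈ D then V t \ H else ∅) k q n := by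
        have hP : ∀ i, ∀ u ∈ (if i = 0 then ({s} : Finset S) else P i), u ∈ P i := by
          intro i u hu
          split_ifs at hu with h0
          · rw [Finset.mem_singleton] at hu; rw [h0, hu]; exact hs
          · exact hu
        refine ⟨?_, ?_, ?_, ?_, ?_, ?_⟩
        · intro i hi x u hu
          simp only [Nat.succ_ne_zero, if_false]
          exact hmaps i hi _ u (hP i u hu)
        · intro i hi x y hxy u hu t ht hut
          exact hmono i hi _ _ (ovr_mono H U hxy) u (hP i u hu) t (hP i t ht) hut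
        · intro i hi x y hxy u hu
          by_cases hiD : i ∈ D
          · simp only [hiD, if_true] at hxy
            refine hloc i hi _ _ (fun v hv => ?_) u (hP i u hu)
            unfold ovr
            by_cases hvH : v ∈ H
            · simp [hvH]
            · simp only [hvH, if_false]
              exact hxy v (Finset.mem_sdiff.2 ⟨hv, hvH⟩)
          · rw [hD, Finset.mem_filter, Finset.mem_range] at hiD
            push Not at hiD
            exact hiD hi _ _ u (hP i u hu)
        · intro i hi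
          by_cases hiD : i ∈ D
          · simp only [hiD, if_true]
            have h1 := hFmax i hiD
            have h2 : (V i \ H).card < (V i).card := by
              refine Finset.card_lt_card (Finset.ssubset_iff_subset_ne.2 ⟨Finset.sdiff_subset, ?_⟩)
              intro he
              exact h1 (Finset.sdiff_eq_self_iff_disjoint.1 he)
            have h3 := hwidth i hi
            omega
          · simp [hiD]
        · simp
        · intro i hi0 hin
          simp only [hi0.ne', if_false]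
          exact (hcard i hin.le).le
      have := hIH X S _ _ _ n hgood hn
      simp only [if_true] at this
      refine le_trans (mu_mono hp0 hp1 (B := fun ρ =>
        ¬ Loc K' (fun x => run (fun t x => E t (ovr H U x)) (app ρ x) n) {s})
        fun ρ hρ hL => hρ ?_) this
      exact hL.congr fun x u _ => (run_pre E (ovr H U) (app ρ x) n u).symm
    have hstars : mu (1 / g) (fun ρ : X → Option Bool =>
        B + b + 1 ≤ (H.filter fun v => ρ v = none).card) ≤ 1 / g ^ (b + 1) := by
      have h1 := mu_stars hg1 H (B + b + 1)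
      have h2 : (0 : ℝ) < g ^ (B + b + 1) := by positivity
      rw [le_div_iff₀ (by positivity)]
      have h3 : g ^ (B + b + 1) = g ^ B * g ^ (b + 1) := by rw [← pow_add]; rfl
      have h4 : (0 : ℝ) < g ^ B := by positivity
      have h5 := h1.trans h2H
      rw [h3] at h5
      have h6 : g ^ B * (mu (1 / g) (fun ρ : X → Option Bool =>
        B + b + 1 ≤ (H.filter fun v => ρ v = none).card) * g ^ (b + 1)) ≤ g ^ B * 1 := by
        rw [mul_one]; refine le_trans (le_of_eq ?_) h5; ring
      exact le_of_mul_le_mul_left h6 h4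
    have hun : mu (1 / g) (fun ρ : X → Option Bool => ∃ Us ∈ H.powerset ×ˢ P 0,
          ¬ Loc K' (fun x => run E (ovr H Us.1 (app ρ x)) n) {Us.2}) ≤ q / g ^ (b + 1) := by
      refine (mu_union_le hp0 hp1 _ _ (c := 1 / g ^ (B + b + 1)) ?_).trans ?_
      · intro Us hUs
        rw [Finset.mem_product] at hUs
        exact hcond Us.1 hUs.1 Us.2 hUs.2
      · rw [Finset.card_product, Finset.card_powerset, hcard 0 (Nat.zero_le n)]
        push_cast
        have h3 : g ^ (B + b + 1) = g ^ B * g ^ (b + 1) := by rw [← pow_add]; rfl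
        rw [h3, mul_one_div, div_le_div_iff₀ (by positivity) (by positivity)]
        have h7 : (0 : ℝ) ≤ q * g ^ (b + 1) := by positivity
        nlinarith [mul_le_mul_of_nonneg_right h2H h7]
    have hfin : mu (1 / g) (fun ρ : X → Option Bool => (∀ t < n, ¬ Forced E P V ρ t) ∧
        ¬ Loc ((B + b) + 2 ^ (B + b) * (q * K')) (fun x => run E (app ρ x) n) (P 0)) ≤
        mu (1 / g) (fun ρ : X → Option Bool =>
          (B + b + 1 ≤ (H.filter fun v => ρ v = none).card) ∨ ∃ Us ∈ H.powerset ×ˢ P 0,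
          ¬ Loc K' (fun x => run E (ovr H Us.1 (app ρ x)) n) {Us.2}) := by
      refine mu_mono hp0 hp1 fun ρ hρ => ?_
      by_contra hnot
      push Not at hnot
      refine hρ.2 (det (H := H) (c := B + b) (hcard 0 (Nat.zero_le n)).le (by omega) ?_)
      intro U hU s hs
      exact hnot.2 (U, s) (Finset.mem_product.2 ⟨hU, hs⟩)
    refine hfin.trans ((mu_or hp0 hp1 _ _).trans ((add_le_add hstars hun).trans ?_))
    rw [← add_div, div_le_div_iff₀ (by positivity) (by positivity), pow_succ]
    nlinarith [hgb, hgq]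

end Pool.Agent.V7H66.Wid
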