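import Mathlib

/-!
Random restrictions as finite sums.  A restriction is a function `X → Option Bool`
(`none` = star).  `wt p` is the product weight with star probability `p`, the two fixed values
having probability `(1-p)/2` each.
-/

namespace Pool.Agent.V7H66.Wid

open Finset

variable {X : Type} [Fintype X] [DecidableEq X]

/-- weight of one symbol -/
noncomputable def w1 (p : ℝ) : Option Bool → ℝ
  | none => p
  | some _ => (1 - p) / 2

/-- product weight of a restriction -/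
noncomputable def wt (p : ℝ) (ρ : X → Option Bool) : ℝ := ∏ v, w1 p (ρ v)

/-- expectation of `f` under the product weight -/
noncomputable def Ex (p : ℝ) (f : (X → Option Bool) → ℝ) : ℝ := ∑ ρ, wt p ρ * f ρ

open Classical in
/-- real indicator of a proposition -/
noncomputable def ind (A : Prop) : ℝ := if A then 1 else 0

lemma ind_true {A : Prop} (h : A) : ind A = 1 := by simp [ind, h]
lemma ind_false {A : Prop} (h : ¬ A) : ind A = 0 := by simp [ind, h]
lemma ind_nonneg (A : Prop) : 0 ≤ ind A := by unfold ind; split_ifs <;> norm_num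
lemma ind_le_one (A : Prop) : ind A ≤ 1 := by unfold ind; split_ifs <;> norm_num
lemma ind_congr {A B : Prop} (h : A ↔ B) : ind A = ind B := by rw [propext h]
lemma ind_mono {A B : Prop} (h : A → B) : ind A ≤ ind B := by
  by_cases hA : A
  · rw [ind_true hA, ind_true (h hA)]
  · rw [ind_false hA]; exact ind_nonneg B

lemma ind_and (A B : Prop) : ind (A ∧ B) = ind A * ind B := by
  by_cases hA : A <;> by_cases hB : B <;> simp [ind, hA, hB]

/-- probability of `A` under the product weight -/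
noncomputable def mu (p : ℝ) (A : (X → Option Bool) → Prop) : ℝ :=
  Ex p (fun ρ => ind (A ρ))

lemma w1_nonneg {p : ℝ} (h0 : 0 ≤ p) (h1 : p ≤ 1) (o : Option Bool) : 0 ≤ w1 p o := by
  cases o with
  | none => exact h0
  | some b => simp only [w1]; linarith

lemma wt_nonneg {p : ℝ} (h0 : 0 ≤ p) (h1 : p ≤ 1) (ρ : X → Option Bool) : 0 ≤ wt p ρ :=
  Finset.prod_nonneg fun v _ => w1_nonneg h0 h1 _

lemma sum_w1 (p : ℝ) : ∑ o, w1 p o = 1 := by
  rw [Fintype.sum_option, Fintype.sum_bool]; simp only [w1]; ring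

lemma Ex_prod (p : ℝ) (φ : X → Option Bool → ℝ) :
    Ex p (fun ρ => ∏ v, φ v (ρ v)) = ∏ v, ∑ o, w1 p o * φ v o := by
  unfold Ex wt
  rw [Finset.prod_univ_sum, Fintype.piFinset_univ]
  refine Finset.sum_congr rfl fun ρ _ => ?_
  rw [← Finset.prod_mul_distrib]

lemma Ex_mono {p : ℝ} (h0 : 0 ≤ p) (h1 : p ≤ 1) {f g : (X → Option Bool) → ℝ}
    (h : ∀ ρ, f ρ ≤ g ρ) : Ex p f ≤ Ex p g :=
  Finset.sum_le_sum fun ρ _ => mul_le_mul_of_nonneg_left (h ρ) (wt_nonneg h0 h1 ρ)

lemma Ex_one (p : ℝ) : Ex p (fun _ : X → Option Bool => (1 : ℝ)) = 1 := by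
  have := Ex_prod (X := X) p (fun _ _ => 1)
  simp only [mul_one, sum_w1, Finset.prod_const_one] at this
  exact this

lemma Ex_mul_left (p c : ℝ) (f : (X → Option Bool) → ℝ) :
    Ex p (fun ρ => c * f ρ) = c * Ex p f := by
  unfold Ex; rw [Finset.mul_sum]
  exact Finset.sum_congr rfl fun ρ _ => by ring

lemma Ex_const (p c : ℝ) : Ex p (fun _ : X → Option Bool => c) = c := by
  have := Ex_mul_left (X := X) p c (fun _ => 1)
  rw [Ex_one] at this; simpa using this

lemma Ex_add (p : ℝ) (f g : (X → Option Bool) → ℝ) :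
    Ex p (fun ρ => f ρ + g ρ) = Ex p f + Ex p g := by
  unfold Ex; rw [← Finset.sum_add_distrib]
  exact Finset.sum_congr rfl fun ρ _ => by ring

lemma Ex_sum {ι : Type*} (p : ℝ) (I : Finset ι) (f : ι → (X → Option Bool) → ℝ) :
    Ex p (fun ρ => ∑ i ∈ I, f i ρ) = ∑ i ∈ I, Ex p (f i) := by
  unfold Ex; rw [Finset.sum_comm]
  exact Finset.sum_congr rfl fun ρ _ => by rw [Finset.mul_sum]

lemma Ex_nonneg {p : ℝ} (h0 : 0 ≤ p) (h1 : p ≤ 1) {f : (X → Option Bool) → ℝ}
    (h : ∀ ρ, 0 ≤ f ρ) : 0 ≤ Ex p f :=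
  Finset.sum_nonneg fun ρ _ => mul_nonneg (wt_nonneg h0 h1 ρ) (h ρ)

lemma mu_nonneg {p : ℝ} (h0 : 0 ≤ p) (h1 : p ≤ 1) (A : (X → Option Bool) → Prop) :
    0 ≤ mu p A := Ex_nonneg h0 h1 fun ρ => ind_nonneg _

lemma mu_mono {p : ℝ} (h0 : 0 ≤ p) (h1 : p ≤ 1) {A B : (X → Option Bool) → Prop}
    (h : ∀ ρ, A ρ → B ρ) : mu p A ≤ mu p B := by
  exact Ex_mono h0 h1 fun ρ => ind_mono (h ρ)

lemma mu_or {p : ℝ} (h0 : 0 ≤ p) (h1 : p ≤ 1) (A B : (X → Option Bool) → Prop) :
    mu p (fun ρ => A ρ ∨ B ρ) ≤ mu p A + mu p B := by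
  unfold mu
  rw [← Ex_add]
  refine Ex_mono h0 h1 fun ρ => ?_
  by_cases hA : A ρ <;> by_cases hB : B ρ <;> simp [hA, hB, ind]

lemma mu_union {ι : Type*} {p : ℝ} (h0 : 0 ≤ p) (h1 : p ≤ 1) (I : Finset ι)
    (A : ι → (X → Option Bool) → Prop) :
    mu p (fun ρ => ∃ i ∈ I, A i ρ) ≤ ∑ i ∈ I, mu p (A i) := by
  unfold mu
  rw [← Ex_sum]
  refine Ex_mono h0 h1 fun ρ => ?_
  have hnn : ∀ i ∈ I, (0 : ℝ) ≤ ind (A i ρ) := fun i _ => ind_nonneg _
  by_cases h : ∃ i ∈ I, A i ρ
  · obtain ⟨i, hi, hA⟩ := h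
    refine le_trans ?_ (Finset.single_le_sum hnn hi)
    rw [ind_true hA]; exact ind_le_one _
  · rw [ind_false h]; exact Finset.sum_nonneg hnn

lemma mu_union_le {ι : Type*} {p c : ℝ} (h0 : 0 ≤ p) (h1 : p ≤ 1) (I : Finset ι)
    (A : ι → (X → Option Bool) → Prop) (h : ∀ i ∈ I, mu p (A i) ≤ c) :
    mu p (fun ρ => ∃ i ∈ I, A i ρ) ≤ I.card * c := by
  refine (mu_union h0 h1 I A).trans ?_
  rw [← nsmul_eq_mul]
  exact Finset.sum_le_card_nsmul _ _ _ h

lemma mu_false (p : ℝ) : mu p (fun _ : X → Option Bool => False) = 0 := by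
  unfold mu; simp [Ex, ind]

/-- Markov inequality -/
lemma mu_markov {p c : ℝ} (h0 : 0 ≤ p) (h1 : p ≤ 1) (A : (X → Option Bool) → Prop)
    (f : (X → Option Bool) → ℝ) (hf : ∀ ρ, 0 ≤ f ρ) (hA : ∀ ρ, A ρ → c ≤ f ρ) :
    c * mu p A ≤ Ex p f := by
  unfold mu
  rw [← Ex_mul_left]
  refine Ex_mono h0 h1 fun ρ => ?_
  by_cases h : A ρ
  · rw [ind_true h, mul_one]; exact hA ρ h
  · rw [ind_false h, mul_zero]; exact hf ρ

/-- swap of a pair on the coordinates of `V` -/
def swapOn (V : Finset X) :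
    ((X → Option Bool) × (X → Option Bool)) ≃ ((X → Option Bool) × (X → Option Bool)) where
  toFun a := (V.piecewise a.2 a.1, V.piecewise a.1 a.2)
  invFun a := (V.piecewise a.2 a.1, V.piecewise a.1 a.2)
  left_inv a := by
    ext v <;> by_cases hv : v ∈ V <;> simp [Finset.piecewise, hv]
  right_inv a := by
    ext v <;> by_cases hv : v ∈ V <;> simp [Finset.piecewise, hv]

lemma Ex_Ex (p q : ℝ) (F : (X → Option Bool) → (X → Option Bool) → ℝ) :
    Ex p (fun ρ => Ex q (fun τ => F ρ τ)) =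
      ∑ a : (X → Option Bool) × (X → Option Bool), wt p a.1 * wt q a.2 * F a.1 a.2 := by
  unfold Ex
  rw [Fintype.sum_prod_type]
  refine Finset.sum_congr rfl fun ρ _ => ?_
  rw [Finset.mul_sum]
  exact Finset.sum_congr rfl fun τ _ => by ring

lemma resample (p : ℝ) (V : Finset X) (f : (X → Option Bool) → ℝ) :
    Ex p (fun ρ => Ex p (fun τ => f (V.piecewise τ ρ))) = Ex p f := by
  have h1 : Ex p f = Ex p (fun ρ => Ex p (fun _ : X → Option Bool => f ρ)) := by
    congr 1; ext ρ; rw [Ex_const]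
  rw [h1, Ex_Ex, Ex_Ex, ← Equiv.sum_comp (swapOn V)]
  refine Finset.sum_congr rfl fun a _ => ?_
  have : wt p (swapOn V a).1 * wt p (swapOn V a).2 = wt p a.1 * wt p a.2 := by
    unfold wt
    rw [← Finset.prod_mul_distrib, ← Finset.prod_mul_distrib]
    refine Finset.prod_congr rfl fun v _ => ?_
    by_cases hv : v ∈ V <;> simp [swapOn, Finset.piecewise, hv, mul_comm]
  rw [this]
  congr 2
  ext v
  by_cases hv : v ∈ V <;> simp [swapOn, Finset.piecewise, hv]

lemma indep (p : ℝ) (V : Finset X) (a f : (X → Option Bool) → ℝ)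
    (ha : ∀ ρ τ : X → Option Bool, (∀ v ∈ V, ρ v = τ v) → a ρ = a τ)
    (hf : ∀ ρ τ : X → Option Bool, (∀ v, v ∉ V → ρ v = τ v) → f ρ = f τ) :
    Ex p (fun ρ => a ρ * f ρ) = Ex p a * Ex p f := by
  rw [← resample p V]
  have : ∀ ρ : X → Option Bool,
      Ex p (fun τ : X → Option Bool => a (V.piecewise τ ρ) * f (V.piecewise τ ρ)) =
        Ex p a * f ρ := by
    intro ρ
    have h2 : (fun τ : X → Option Bool => a (V.piecewise τ ρ) * f (V.piecewise τ ρ)) = fun τ => f ρ * a τ := by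
      ext τ
      rw [ha (V.piecewise τ ρ) τ (fun v hv => by simp [Finset.piecewise, hv]),
        hf (V.piecewise τ ρ) ρ (fun v hv => by simp [Finset.piecewise, hv]), mul_comm]
    rw [h2, Ex_mul_left, mul_comm]
  simp_rw [this]
  rw [Ex_mul_left]

/-- composition of restrictions: `ρ` first, `τ` on the stars of `ρ` -/
def comp (ρ τ : X → Option Bool) : X → Option Bool := fun v => (ρ v).elim (τ v) some

lemma w1_comp (p q : ℝ) (r : Option Bool) :
    ∑ a ∈ (univ : Finset (Option Bool × Option Bool)).filter (fun a => a.1.elim a.2 some = r),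
      w1 p a.1 * w1 q a.2 = w1 (p * q) r := by
  rw [Finset.sum_filter, Fintype.sum_prod_type]
  simp only [Fintype.sum_option, Fintype.sum_bool, Option.elim]
  rcases r with _ | _ | _ <;> simp [w1] <;> ring

lemma Ex_comp (p q : ℝ) (f : (X → Option Bool) → ℝ) :
    Ex (p * q) f = Ex p (fun ρ => Ex q (fun τ => f (comp ρ τ))) := by
  rw [Ex_Ex]
  let e : (X → Option Bool × Option Bool) ≃ ((X → Option Bool) × (X → Option Bool)) :=
    Equiv.arrowProdEquivProdArrow X (fun _ => Option Bool) (fun _ => Option Bool)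
  rw [← Equiv.sum_comp e, ← Finset.sum_fiberwise univ (fun π => comp (e π).1 (e π).2)]
  unfold Ex
  refine Finset.sum_congr rfl fun ρ _ => ?_
  have h1 : ∑ π ∈ (univ : Finset (X → Option Bool × Option Bool)).filter
      (fun π => comp (e π).1 (e π).2 = ρ),
      wt p (e π).1 * wt q (e π).2 * f (comp (e π).1 (e π).2) =
      (∑ π ∈ (univ : Finset (X → Option Bool × Option Bool)).filter
      (fun π => comp (e π).1 (e π).2 = ρ), ∏ v, (w1 p (π v).1 * w1 q (π v).2)) * f ρ := by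
    rw [Finset.sum_mul]
    refine Finset.sum_congr rfl fun π hπ => ?_
    rw [(Finset.mem_filter.1 hπ).2, Finset.prod_mul_distrib]
    rfl
  rw [h1]
  congr 1
  have h2 : (univ : Finset (X → Option Bool × Option Bool)).filter
      (fun π => comp (e π).1 (e π).2 = ρ) =
      Fintype.piFinset (fun v => (univ : Finset (Option Bool × Option Bool)).filter
        (fun a => a.1.elim a.2 some = ρ v)) := by
    ext π
    simp only [Finset.mem_filter, Finset.mem_univ, true_and, Fintype.mem_piFinset]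
    constructor
    · intro h v; rw [← h]; rfl
    · intro h; ext v : 1; exact h v
  rw [h2, ← Finset.prod_univ_sum
    (fun v => (univ : Finset (Option Bool × Option Bool)).filter
        (fun a => a.1.elim a.2 some = ρ v)) (fun _ a => w1 p a.1 * w1 q a.2)]
  unfold wt
  exact Finset.prod_congr rfl fun v _ => (w1_comp p q (ρ v)).symm

lemma mu_comp (p q : ℝ) (A : (X → Option Bool) → Prop) :
    mu (p * q) A = Ex p (fun ρ => mu q (fun τ => A (comp ρ τ))) := by
  unfold mu; rw [Ex_comp]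

end Pool.Agent.V7H66.Wid
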