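import Pool.Agent.V7H66.Wid.Prob

/-!
Monotone programs over a finite partially ordered state space.
-/

namespace Pool.Agent.V7H66.Wid

open Finset

variable {X S : Type} [Fintype X] [DecidableEq X] [PartialOrder S]

/-- composite of the first `n` instructions -/
def run (E : ℕ → (X → Bool) → S → S) (x : X → Bool) : ℕ → S → S
  | 0, s => s
  | n + 1, s => E n x (run E x n s)

/-- good program with `m` instructions, locality `k`, at most `q` interior states,
at most one start state -/
structure Good (E : ℕ → (X → Bool) → S → S) (P : ℕ → Finset S) (V : ℕ → Finset X)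
    (k q m : ℕ) : Prop where
  maps : ∀ i < m, ∀ x, ∀ s ∈ P i, E i x s ∈ P (i + 1)
  mono : ∀ i < m, ∀ x y : X → Bool, x ≤ y → ∀ s ∈ P i, ∀ t ∈ P i, s ≤ t → E i x s ≤ E i y t
  loc : ∀ i < m, ∀ x y : X → Bool, (∀ v ∈ V i, x v = y v) → ∀ s ∈ P i, E i x s = E i y s
  width : ∀ i < m, (V i).card ≤ k
  start : (P 0).card ≤ 1
  states : ∀ i, 0 < i → i < m → (P i).card ≤ q

/-- `F` depends, on `P0`, only on at most `K` variables -/
def Loc (K : ℕ) (F : (X → Bool) → S → S) (P0 : Finset S) : Prop :=
  ∃ L : Finset X, L.card ≤ K ∧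
    ∀ x y : X → Bool, (∀ v ∈ L, x v = y v) → ∀ s ∈ P0, F x s = F y s

lemma Loc.mono {K K' : ℕ} {F : (X → Bool) → S → S} {P0 : Finset S} (h : Loc K F P0)
    (hK : K ≤ K') : Loc K' F P0 := by
  obtain ⟨L, h1, h2⟩ := h
  exact ⟨L, h1.trans hK, h2⟩

lemma Loc.congr {K : ℕ} {F G : (X → Bool) → S → S} {P0 : Finset S} (h : Loc K F P0)
    (hG : ∀ x, ∀ s ∈ P0, G x s = F x s) : Loc K G P0 := by
  obtain ⟨L, h1, h2⟩ := h
  exact ⟨L, h1, fun x y hxy s hs => by rw [hG x s hs, hG y s hs, h2 x y hxy s hs]⟩

lemma run_add (E : ℕ → (X → Bool) → S → S) (x : X → Bool) (l n : ℕ) (s : S) :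
    run E x (l + n) s = run (fun i => E (l + i)) x n (run E x l s) := by
  induction n with
  | zero => rfl
  | succ n ih => show E (l + n) x (run E x (l + n) s) = _; rw [ih]; rfl

lemma run_succ' (E : ℕ → (X → Bool) → S → S) (x : X → Bool) (n : ℕ) (s : S) :
    run E x (n + 1) s = run (fun i => E (i + 1)) x n (E 0 x s) := by
  induction n with
  | zero => rfl
  | succ n ih => show E (n + 1) x (run E x (n + 1) s) = _; rw [ih]; rfl

lemma run_mem {E : ℕ → (X → Bool) → S → S} {P : ℕ → Finset S} {x : X → Bool} {n : ℕ}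
    (h : ∀ i < n, ∀ s ∈ P i, E i x s ∈ P (i + 1)) {s : S} (hs : s ∈ P 0) :
    run E x n s ∈ P n := by
  induction n with
  | zero => exact hs
  | succ n ih => exact h n (Nat.lt_succ_self n) _ (ih fun i hi => h i (hi.trans (Nat.lt_succ_self n)))

lemma run_mono {E : ℕ → (X → Bool) → S → S} {P : ℕ → Finset S} {n : ℕ}
    (h : ∀ i < n, ∀ x, ∀ s ∈ P i, E i x s ∈ P (i + 1))
    (hm : ∀ i < n, ∀ x y : X → Bool, x ≤ y → ∀ s ∈ P i, ∀ t ∈ P i, s ≤ t → E i x s ≤ E i y t)
    {x y : X → Bool} (hxy : x ≤ y) {s t : S} (hs : s ∈ P 0) (ht : t ∈ P 0) (hst : s ≤ t) :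
    run E x n s ≤ run E y n t := by
  induction n with
  | zero => exact hst
  | succ n ih =>
    have h' : ∀ i < n, ∀ x, ∀ s ∈ P i, E i x s ∈ P (i + 1) :=
      fun i hi => h i (hi.trans (Nat.lt_succ_self n))
    exact hm n (Nat.lt_succ_self n) x y hxy _ (run_mem (fun i hi => h' i hi x) hs) _
      (run_mem (fun i hi => h' i hi y) ht)
      (ih h' fun i hi => hm i (hi.trans (Nat.lt_succ_self n)))

lemma run_congr {E E' : ℕ → (X → Bool) → S → S} {P : ℕ → Finset S} {x x' : X → Bool} {n : ℕ}
    (h : ∀ i < n, ∀ s ∈ P i, E i x s ∈ P (i + 1))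
    (he : ∀ i < n, ∀ s ∈ P i, E' i x' s = E i x s) {s : S} (hs : s ∈ P 0) :
    run E' x' n s = run E x n s := by
  induction n with
  | zero => rfl
  | succ n ih =>
    have h' : ∀ i < n, ∀ s ∈ P i, E i x s ∈ P (i + 1) :=
      fun i hi => h i (hi.trans (Nat.lt_succ_self n))
    show E' n x' (run E' x' n s) = E n x (run E x n s)
    rw [ih h' fun i hi => he i (hi.trans (Nat.lt_succ_self n)),
      he n (Nat.lt_succ_self n) _ (run_mem h' hs)]

/-- apply a restriction to an input -/
def app (ρ : X → Option Bool) (x : X → Bool) : X → Bool := fun v => (ρ v).getD (x v)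

lemma app_mono (ρ : X → Option Bool) {x y : X → Bool} (h : x ≤ y) : app ρ x ≤ app ρ y := by
  intro v
  unfold app
  cases ρ v with
  | none => exact h v
  | some b => exact le_rfl

lemma app_comp (ρ τ : X → Option Bool) (x : X → Bool) : app (comp ρ τ) x = app ρ (app τ x) := by
  funext v
  unfold app comp
  cases ρ v <;> rfl

lemma app_agree (ρ : X → Option Bool) {x y : X → Bool} {v : X} (h : x v = y v) :
    app ρ x v = app ρ y v := by unfold app; rw [h]

lemma run_app (E : ℕ → (X → Bool) → S → S) (ρ : X → Option Bool) (x : X → Bool) (n : ℕ) (s : S) :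
    run (fun i x => E i (app ρ x)) x n s = run E (app ρ x) n s := by
  induction n with
  | zero => rfl
  | succ n ih => show E n (app ρ x) (run (fun i x => E i (app ρ x)) x n s) = _; rw [ih]; rfl

/-- two pointwise comparable bijections between finite subsets of a poset are equal -/
lemma bij_eq {P P' : Finset S} (hc : P.card = P'.card) {f g : S → S}
    (hf : ∀ s ∈ P, f s ∈ P') (hg : ∀ s ∈ P, g s ∈ P')
    (hfi : Set.InjOn f P) (hgi : Set.InjOn g P) (hle : ∀ s ∈ P, f s ≤ g s) :
    ∀ s ∈ P, f s = g s := by
  classical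
  by_contra hne
  push Not at hne
  obtain ⟨s0, hs0, hne0⟩ := hne
  have hB : (P.filter fun s => f s ≠ g s).Nonempty := ⟨s0, by simp [hs0, hne0]⟩
  obtain ⟨y, hy⟩ := Finset.exists_maximal (hB.image f)
  obtain ⟨s, hs, rfl⟩ := Finset.mem_image.1 hy.1
  rw [Finset.mem_filter] at hs
  have himg : P.image f = P' := by
    apply Finset.eq_of_subset_of_card_le
    · intro z hz
      obtain ⟨u, hu, rfl⟩ := Finset.mem_image.1 hz
      exact hf u hu
    · rw [Finset.card_image_of_injOn hfi, hc]
  have hgs : g s ∈ P.image f := by rw [himg]; exact hg s hs.1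
  obtain ⟨s', hs', he⟩ := Finset.mem_image.1 hgs
  have hlt : f s < f s' := by rw [he]; exact lt_of_le_of_ne (hle s hs.1) hs.2
  by_cases hfg : f s' = g s'
  · have : s' = s := hgi hs' hs.1 (by rw [← hfg, he])
    subst this
    exact lt_irrefl _ hlt
  · have := hy.2 (Finset.mem_image.2 ⟨s', Finset.mem_filter.2 ⟨hs', hfg⟩, rfl⟩) hlt.le
    exact absurd (lt_of_lt_of_le hlt this) (lt_irrefl _)

section Contract

variable (P : ℕ → Finset S) (q m : ℕ)

/-- last cut position -/
noncomputable def lc : ℕ → ℕ
  | 0 => 0
  | i + 1 => if (P (i + 1)).card ≤ q ∨ i + 1 = m then i + 1 else lc i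

lemma lc_le (i : ℕ) : lc P q m i ≤ i := by
  induction i with
  | zero => exact le_rfl
  | succ i ih => unfold lc; split_ifs <;> omega

lemma lc_gap (i j : ℕ) (h1 : lc P q m i < j) (h2 : j ≤ i) : ¬((P j).card ≤ q ∨ j = m) := by
  induction i with
  | zero => omega
  | succ i ih =>
    unfold lc at h1
    split_ifs at h1 with hc
    · omega
    · rcases Nat.lt_or_ge i j with h | h
      · have : j = i + 1 := by omega
        subst this; exact hc
      · exact ih h1 h

lemma lc_small (i : ℕ) (hi : i < m) : lc P q m i = 0 ∨ (P (lc P q m i)).card ≤ q := by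
  induction i with
  | zero => left; rfl
  | succ i ih =>
    unfold lc
    split_ifs with hc
    · rcases hc with hc | hc
      · right; exact hc
      · omega
    · exact ih (by omega)

end Contract

theorem contract {E : ℕ → (X → Bool) → S → S} {P : ℕ → Finset S} {V : ℕ → Finset X}
    {k q m K1 : ℕ} (hq : 1 ≤ q) (hg : Good E P V k (q + 1) m)
    (hw : ∀ l n, 0 < l → l + n < m → (∀ j, l ≤ j → j ≤ l + n → (P j).card = q + 1) →
      Loc K1 (fun x => run (fun i => E (l + i)) x n) (P l)) :
    ∃ (E' : ℕ → (X → Bool) → S → S) (P' : ℕ → Finset S) (V' : ℕ → Finset X),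
      Good E' P' V' (2 * k + K1) q m ∧ P' 0 = P 0 ∧
        ∀ x, ∀ s ∈ P 0, run E' x m s = run E x m s := by
  classical
  let c := lc P q m
  have hc_le : ∀ i, c i ≤ i := lc_le P q m
  let E' : ℕ → (X → Bool) → S → S := fun i x s =>
    if (P (i + 1)).card ≤ q ∨ i + 1 = m then run (fun j => E (c i + j)) x (i + 1 - c i) s else s
  have hcs : ∀ i, c (i + 1) = if (P (i + 1)).card ≤ q ∨ i + 1 = m then i + 1 else c i :=
    fun i => rfl
  -- composite from a cut position
  have hrm : ∀ l n, l + n ≤ m → ∀ x, ∀ s ∈ P l, run (fun j => E (l + j)) x n s ∈ P (l + n) := by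
    intro l n hln x s hs
    exact run_mem (E := fun j => E (l + j)) (P := fun j => P (l + j)) (n := n)
      (fun i hi s hs => hg.maps (l + i) (by omega) x s hs) hs
  have hrmono : ∀ l n, l + n ≤ m → ∀ x y : X → Bool, x ≤ y → ∀ s ∈ P l, ∀ t ∈ P l, s ≤ t →
      run (fun j => E (l + j)) x n s ≤ run (fun j => E (l + j)) y n t := by
    intro l n hln x y hxy s hs t ht hst
    exact run_mono (E := fun j => E (l + j)) (P := fun j => P (l + j)) (n := n)
      (fun i hi x s hs => hg.maps (l + i) (by omega) x s hs)
      (fun i hi => hg.mono (l + i) (by omega)) hxy hs ht hst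
  -- locality of an instruction
  have hloc : ∀ i < m, ∃ L : Finset X, L.card ≤ 2 * k + K1 ∧
      ∀ x y : X → Bool, (∀ v ∈ L, x v = y v) → ∀ s ∈ P (c i), E' i x s = E' i y s := by
    intro i hi
    by_cases hcut : (P (i + 1)).card ≤ q ∨ i + 1 = m
    · rcases Nat.eq_or_lt_of_le (hc_le i) with he | hlt
      · refine ⟨V i, (hg.width i hi).trans (by omega), fun x y hxy s hs => ?_⟩
        simp only [E', hcut, if_true]
        rw [he] at hs ⊢
        rw [Nat.add_sub_cancel_left]
        exact hg.loc i hi x y hxy s hs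
      · obtain ⟨L, hL1, hL2⟩ := hw (c i + 1) (i - (c i + 1)) (Nat.succ_pos _) (by omega) (by
          intro j hj1 hj2
          have h1 := lc_gap P q m i j (by show c i < j; omega) (by omega)
          have h2 := hg.states j (by omega) (by omega)
          push Not at h1
          omega)
        refine ⟨V (c i) ∪ (L ∪ V i), ?_, fun x y hxy s hs => ?_⟩
        · have h1 := Finset.card_union_le (V (c i)) (L ∪ V i)
          have h2 := Finset.card_union_le L (V i)
          have h3 := hg.width (c i) (by omega)
          have h4 := hg.width i hi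
          omega
        · have hx1 : ∀ v ∈ V (c i), x v = y v := fun v hv => hxy v (by simp [hv])
          have hx2 : ∀ v ∈ L, x v = y v := fun v hv => hxy v (by simp [hv])
          have hx3 : ∀ v ∈ V i, x v = y v := fun v hv => hxy v (by simp [hv])
          simp only [E', hcut, if_true]
          have hn : i + 1 - c i = (i - (c i + 1)) + 1 + 1 := by omega
          rw [hn]
          have key : ∀ z : X → Bool, run (fun j => E (c i + j)) z (i - (c i + 1) + 1 + 1) s =
              E i z (run (fun j => E (c i + 1 + j)) z (i - (c i + 1)) (E (c i) z s)) := by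
            intro z
            show E (c i + (i - (c i + 1) + 1)) z (run (fun j => E (c i + j)) z
              (i - (c i + 1) + 1) s) = _
            rw [run_succ']
            have e1 : c i + (i - (c i + 1) + 1) = i := by omega
            rw [e1]
            have e2 : (fun i_1 => E (c i + (i_1 + 1))) = fun j => E (c i + 1 + j) := by
              funext j; rw [show c i + (j + 1) = c i + 1 + j by omega]
            rw [e2]
            rfl
          rw [key x, key y]
          have s1 := hg.loc (c i) (by omega) x y hx1 s hs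
          have m1 := hg.maps (c i) (by omega) y s hs
          have h5 : run (fun j => E (c i + 1 + j)) x (i - (c i + 1)) (E (c i) y s) =
              run (fun j => E (c i + 1 + j)) y (i - (c i + 1)) (E (c i) y s) := hL2 x y hx2 _ m1
          rw [s1, h5]
          refine hg.loc i hi x y hx3 _ ?_
          have := hrm (c i + 1) (i - (c i + 1)) (by omega) y _ m1
          rwa [show c i + 1 + (i - (c i + 1)) = i by omega] at this
    · refine ⟨∅, by simp, fun x y _ s _ => ?_⟩
      simp only [E', hcut, if_false]
  choose V' hV1 hV2 using hloc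
  refine ⟨E', fun i => P (c i), fun i => if h : i < m then V' i h else ∅, ?_, rfl, ?_⟩
  · refine ⟨?_, ?_, ?_, ?_, hg.start, ?_⟩
    · intro i hi x s hs
      show E' i x s ∈ P (c (i + 1))
      have := hc_le i
      rw [hcs]
      by_cases hcut : (P (i + 1)).card ≤ q ∨ i + 1 = m
      · simp only [E', hcut, if_true]
        have h2 := hrm (c i) (i + 1 - c i) (by omega) x s hs
        rwa [show c i + (i + 1 - c i) = i + 1 by omega] at h2
      · simp only [E', hcut, if_false]
        exact hs
    · intro i hi x y hxy s hs t ht hst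
      show E' i x s ≤ E' i y t
      have := hc_le i
      by_cases hcut : (P (i + 1)).card ≤ q ∨ i + 1 = m
      · simp only [E', hcut, if_true]
        exact hrmono (c i) (i + 1 - c i) (by omega) x y hxy s hs t ht hst
      · simp only [E', hcut, if_false]
        exact hst
    · intro i hi x y hxy s hs
      simp only [hi, dif_pos] at hxy
      exact hV2 i hi x y hxy s hs
    · intro i hi
      simp only [hi, dif_pos]
      exact hV1 i hi
    · intro i hi0 him
      rcases lc_small P q m i him with h | h
      · show (P (c i)).card ≤ q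
        have : c i = 0 := h
        rw [this]
        exact hg.start.trans hq
      · exact h
  · have main : ∀ i, i ≤ m → ∀ x, ∀ s ∈ P 0, run E' x i s = run E x (c i) s := by
      intro i
      induction i with
      | zero => intro _ x s _; rfl
      | succ i ih =>
        intro him x s hs
        show E' i x (run E' x i s) = _
        rw [ih (by omega) x s hs, hcs]
        have := hc_le i
        by_cases hcut : (P (i + 1)).card ≤ q ∨ i + 1 = m
        · simp only [E', hcut, if_true]
          rw [← run_add, show c i + (i + 1 - c i) = i + 1 by omega]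
        · simp only [E', hcut, if_false]
    intro x s hs
    rw [main m le_rfl x s hs]
    cases m with
    | zero => rfl
    | succ m => rw [hcs]; simp

end Pool.Agent.V7H66.Wid
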