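import Pool.Agent.V7H66.Wid.Mid

/-!
The induction step and the locality theorem.
-/

namespace Pool.Agent.V7H66.Wid

open Finset Filter

variable {X S : Type} [Fintype X] [DecidableEq X] [PartialOrder S]

open Classical in
/-- state sets after a restriction: forced non-injective instructions shrink the state set -/
noncomputable def shr (E : ℕ → (X → Bool) → S → S) (P : ℕ → Finset S) (V : ℕ → Finset X)
    (ρ : X → Option Bool) : ℕ → Finset S
  | 0 => P 0
  | i + 1 => if Forced E P V ρ i then (P i).image (E i (app ρ fun _ => false)) else P (i + 1)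

lemma shr_yes {E : ℕ → (X → Bool) → S → S} {P : ℕ → Finset S} {V : ℕ → Finset X}
    {ρ : X → Option Bool} {i : ℕ} [DecidableEq S] (h : Forced E P V ρ i) :
    shr E P V ρ (i + 1) = (P i).image (E i (app ρ fun _ => false)) := by
  classical
  show (if Forced E P V ρ i then _ else _) = _
  rw [if_pos h]
  ext u; simp

lemma shr_no {E : ℕ → (X → Bool) → S → S} {P : ℕ → Finset S} {V : ℕ → Finset X}
    {ρ : X → Option Bool} {i : ℕ} (h : ¬ Forced E P V ρ i) :
    shr E P V ρ (i + 1) = P (i + 1) := by
  classical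
  show (if Forced E P V ρ i then _ else _) = _
  rw [if_neg h]

lemma shr_subset {E : ℕ → (X → Bool) → S → S} {P : ℕ → Finset S} {V : ℕ → Finset X} {k q m : ℕ}
    (hg : Good E P V k q m) (ρ : X → Option Bool) (i : ℕ) (hi : i ≤ m) : shr E P V ρ i ⊆ P i := by
  cases i with
  | zero => exact subset_rfl
  | succ i =>
    classical
    by_cases hf : Forced E P V ρ i
    · rw [shr_yes hf]
      intro u hu
      obtain ⟨s, hs, rfl⟩ := Finset.mem_image.1 hu
      exact hg.maps i hi _ s hs
    · rw [shr_no hf]

lemma shr_card {E : ℕ → (X → Bool) → S → S} {P : ℕ → Finset S} {V : ℕ → Finset X} {k q m : ℕ}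
    (hg : Good E P V k (q + 1) m) (ρ : X → Option Bool) (i : ℕ) (hi : i < m)
    (hf : Forced E P V ρ i) : (shr E P V ρ (i + 1)).card ≤ q := by
  classical
  rw [shr_yes hf]
  have h1 : (P i).card ≤ q + 1 := by
    rcases Nat.eq_zero_or_pos i with h | h
    · subst h; exact hg.start.trans (by omega)
    · exact hg.states i h hi
  have h2 : ((P i).image (E i (app ρ fun _ => false))).card < (P i).card := by
    refine lt_of_le_of_ne Finset.card_image_le fun he => hf.2 ?_
    exact Finset.card_image_iff.1 he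
  omega

lemma shr_good {E : ℕ → (X → Bool) → S → S} {P : ℕ → Finset S} {V : ℕ → Finset X} {k q m : ℕ}
    (hg : Good E P V k (q + 1) m) (ρ : X → Option Bool) :
    Good (fun i x => E i (app ρ x)) (shr E P V ρ) V k (q + 1) m := by
  classical
  refine ⟨?_, ?_, ?_, hg.width, hg.start, ?_⟩
  · intro i hi x s hs
    have hs' := shr_subset hg ρ i hi.le hs
    show E i (app ρ x) s ∈ shr E P V ρ (i + 1)
    by_cases hf : Forced E P V ρ i
    · rw [shr_yes hf]
      refine Finset.mem_image.2 ⟨s, hs', ?_⟩
      refine hg.loc i hi _ _ (fun v hv => ?_) s hs'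
      have := hf.1 v hv
      unfold app
      cases h : ρ v with
      | none => exact absurd h this
      | some b => rfl
    · rw [shr_no hf]
      exact hg.maps i hi _ s hs'
  · intro i hi x y hxy s hs t ht hst
    exact hg.mono i hi _ _ (app_mono ρ hxy) s (shr_subset hg ρ i hi.le hs) t
      (shr_subset hg ρ i hi.le ht) hst
  · intro i hi x y hxy s hs
    exact hg.loc i hi _ _ (fun v hv => app_agree ρ (hxy v hv)) s (shr_subset hg ρ i hi.le hs)
  · intro i hi0 him
    exact (Finset.card_le_card (shr_subset hg ρ i him.le)).trans (hg.states i hi0 him)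

lemma step (k q : ℕ) (hq : 1 ≤ q) (hmid : Claim k (q + 1)) (hC : ∀ k', Claim k' q) :
    Claim (k + 1) (q + 1) := by
  classical
  intro a b
  obtain ⟨K1, h1⟩ := mid k (q + 1) hmid (2 * a) (4 * a + 2 * b + 1)
  obtain ⟨K, h2⟩ := hC (2 * (k + 1) + K1) (2 * a) (2 * b + 1)
  refine ⟨K, ?_⟩
  filter_upwards [Real.tendsto_sqrt_atTop.eventually h1, Real.tendsto_sqrt_atTop.eventually h2,
    Real.tendsto_sqrt_atTop.eventually (eventually_ge_atTop (2 : ℝ)),
    eventually_ge_atTop (1 : ℝ)] with g hw hc hg2 hg1
  intro X S _ _ _ E P V m hgood hm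
  set f : ℝ := Real.sqrt g with hf
  have hf0 : (0 : ℝ) < f := by linarith
  have hf1 : (1 : ℝ) ≤ f := by linarith
  have hgf : g = f ^ 2 := by rw [hf, Real.sq_sqrt (by linarith)]
  have hp0 : (0 : ℝ) ≤ 1 / f := by positivity
  have hp1 : 1 / f ≤ 1 := by rw [div_le_one hf0]; exact hf1
  have hmf : (m : ℝ) ≤ f ^ (2 * a) := by rw [pow_mul, ← hgf]; exact hm
  have hpp : 1 / g = 1 / f * (1 / f) := by rw [hgf]; field_simp
  rw [hpp, mu_comp]
  -- bad restrictions
  set Bad : (X → Option Bool) → Prop := fun ρ => ∃ ln ∈ (range m) ×ˢ (range m),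
    (0 < ln.1 ∧ ln.1 + ln.2 < m ∧ (∀ j, ln.1 ≤ j → j ≤ ln.1 + ln.2 → (P j).card = q + 1)) ∧
    (∀ t < ln.2, ¬ Forced (fun i => E (ln.1 + i)) (fun i => P (ln.1 + i))
      (fun i => V (ln.1 + i)) ρ t) ∧
    ¬ Loc K1 (fun x => run (fun i => E (ln.1 + i)) (app ρ x) ln.2) (P ln.1) with hBad
  have hbad : mu (1 / f) Bad ≤ 1 / f ^ (2 * b + 1) := by
    refine (mu_union_le hp0 hp1 _ _ (c := 1 / f ^ (4 * a + 2 * b + 1)) ?_).trans ?_
    · intro ln _
      by_cases hcond : (0 < ln.1 ∧ ln.1 + ln.2 < m ∧
          (∀ j, ln.1 ≤ j → j ≤ ln.1 + ln.2 → (P j).card = q + 1))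
      · refine le_trans (mu_mono hp0 hp1 fun ρ hρ => hρ.2) ?_
        refine hw X S (fun i => E (ln.1 + i)) (fun i => P (ln.1 + i)) (fun i => V (ln.1 + i)) ln.2
          ?_ ?_ ?_ ?_ ?_ ?_
        · intro i hi; exact hgood.maps (ln.1 + i) (by omega)
        · intro i hi; exact hgood.mono (ln.1 + i) (by omega)
        · intro i hi; exact hgood.loc (ln.1 + i) (by omega)
        · intro i hi; exact hgood.width (ln.1 + i) (by omega)
        · intro i hi; exact hcond.2.2 (ln.1 + i) (by omega) (by omega)
        · refine le_trans ?_ hmf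
          exact_mod_cast (by omega : ln.2 ≤ m)
      · exact mu_le_of_forall_not hp0 hp1 (by positivity) _ fun ρ hρ => hcond hρ.1
    · rw [Finset.card_product, Finset.card_range]
      push_cast
      have h3 : (m : ℝ) * m ≤ f ^ (4 * a) := by
        calc (m : ℝ) * m ≤ f ^ (2 * a) * f ^ (2 * a) :=
              mul_le_mul hmf hmf (by positivity) (by positivity)
          _ = f ^ (4 * a) := by rw [← pow_add]; congr 1; ring
      rw [mul_one_div, div_le_div_iff₀ (by positivity) (by positivity), one_mul,
        show 4 * a + 2 * b + 1 = 4 * a + (2 * b + 1) by ring, pow_add f (4 * a)]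
      exact mul_le_mul_of_nonneg_right h3 (by positivity)
  have hmain : ∀ ρ : X → Option Bool, mu (1 / f) (fun τ : X → Option Bool =>
      ¬ Loc K (fun x => run E (app (comp ρ τ) x) m) (P 0)) ≤
      ind (Bad ρ) + 1 / f ^ (2 * b + 1) := by
    intro ρ
    by_cases hρ : Bad ρ
    · rw [ind_true hρ]
      have h3 : mu (1 / f) (fun τ : X → Option Bool =>
        ¬ Loc K (fun x => run E (app (comp ρ τ) x) m) (P 0)) ≤ 1 :=
        (Ex_mono hp0 hp1 (g := fun _ => 1) fun ρ => ind_le_one _).trans (Ex_one _).le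
      have h4 : (0 : ℝ) ≤ 1 / f ^ (2 * b + 1) := by positivity
      linarith
    · rw [ind_false hρ, zero_add]
      have hgρ := shr_good hgood ρ
      obtain ⟨E', P', V', hg', hP0, hrun⟩ := contract hq hgρ (K1 := K1) (by
        intro l n hl hln hcard
        have hPj : ∀ j, l ≤ j → j ≤ l + n → shr E P V ρ j = P j := by
          intro j hj1 hj2
          refine Finset.eq_of_subset_of_card_le (shr_subset hgood ρ j (by omega)) ?_
          rw [hcard j hj1 hj2]
          exact hgood.states j (by omega) (by omega)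
        by_contra hL
        apply hρ
        rw [hBad]
        refine ⟨(l, n), by rw [Finset.mem_product]; simp only [Finset.mem_range]; omega,
          ⟨hl, hln, fun j hj1 hj2 => ?_⟩, ?_, ?_⟩
        · rw [← hPj j hj1 hj2]; exact hcard j hj1 hj2
        · intro t ht hfor
          have h5 : Forced E P V ρ (l + t) := hfor
          have h6 := shr_card hgood ρ (l + t) (by omega) h5
          have h7 := hcard (l + t + 1) (by omega) (by omega)
          omega
        · intro hL'
          apply hL
          rw [hPj l le_rfl (by omega)]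
          exact hL'.congr fun x s _ => run_app (fun i => E (l + i)) ρ x n s)
      refine le_trans (mu_mono hp0 hp1 (B := fun τ =>
        ¬ Loc K (fun x => run E' (app τ x) m) (P' 0)) fun τ hτ hL => hτ ?_)
        (hc X S E' P' V' m hg' hmf)
      rw [hP0] at hL
      refine hL.congr fun x s hs => ?_
      rw [hrun _ s hs, run_app, app_comp]
  refine (Ex_mono hp0 hp1 hmain).trans ?_
  rw [Ex_add, Ex_const]
  have h5 : Ex (1 / f) (fun ρ => ind (Bad ρ)) ≤ 1 / f ^ (2 * b + 1) := hbad
  have h6 : 1 / f ^ (2 * b + 1) + 1 / f ^ (2 * b + 1) ≤ 1 / g ^ b := by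
    rw [hgf, ← pow_mul, ← add_div, div_le_div_iff₀ (by positivity) (by positivity), pow_succ]
    have : (0 : ℝ) < f ^ (2 * b) := by positivity
    nlinarith
  linarith

/-- **Locality theorem.** -/
theorem claim_all : ∀ q k : ℕ, Claim k (q + 1) := by
  intro q
  induction q with
  | zero => intro k; exact claim_one k
  | succ q ih =>
    intro k
    induction k with
    | zero => exact claim_zero _
    | succ k ihk => exact step k (q + 1) (Nat.succ_pos q) ihk ih

end Pool.Agent.V7H66.Wid
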